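import Pool.Agent.MP_5f4cdd_gt.NW.Op

set_option autoImplicit false
set_option linter.unusedSectionVars false
open Set Filter Topology MeasureTheory Metric
open scoped RealInnerProductSpace NNReal ENNReal

namespace Pool.Agent.MP_5f4cdd_gt.NW

open T4

variable {E : Type*} [NormedAddCommGroup E] [InnerProductSpace ℝ E] [FiniteDimensional ℝ E]
  [MeasurableSpace E] [BorelSpace E]

/-- combination of the two partial operators -/
noncomputable def op (a b : ℝ) (D : (E × E) →L[ℝ] E) : E →L[ℝ] E := a • p2 D + b • p1 D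

theorem op_apply (a b : ℝ) (D : (E × E) →L[ℝ] E) (v : E) :
    op a b D v = a • D (0, v) + b • D (v, 0) := rfl

theorem fderiv_apply_le {F G : Type*} [NormedAddCommGroup F] [NormedSpace ℝ F]
    [NormedAddCommGroup G] [NormedSpace ℝ G] {s : F → G} {C : ℝ≥0} (hs : LipschitzWith C s)
    (X Y : F) : ‖fderiv ℝ s X Y‖ ≤ C * ‖Y‖ :=
  ((fderiv ℝ s X).le_opNorm Y).trans (by gcongr; exact norm_fderiv_le_of_lipschitz ℝ hs)

theorem norm_op_le (a b : ℝ) {s : E × E → E} {C : ℝ≥0} (hs : LipschitzWith C s) (X : E × E) :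
    ‖op a b (fderiv ℝ s X)‖ ≤ (|a| + |b|) * C := by
  refine ContinuousLinearMap.opNorm_le_bound _ (by positivity) fun v => ?_
  rw [op_apply]
  have h1 := fderiv_apply_le hs X (0, v)
  have h2 := fderiv_apply_le hs X (v, 0)
  simp only [Prod.norm_mk, norm_zero, norm_nonneg, max_eq_right, max_eq_left] at h1 h2
  refine (norm_add_le _ _).trans ?_
  rw [norm_smul, norm_smul, Real.norm_eq_abs, Real.norm_eq_abs]
  have h3 : |a| * ‖fderiv ℝ s X (0, v)‖ ≤ |a| * (C * ‖v‖) := by gcongr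
  have h4 : |b| * ‖fderiv ℝ s X (v, 0)‖ ≤ |b| * (C * ‖v‖) := by gcongr
  linarith

theorem measurable_det_op (a b κ ε : ℝ) (s : E × E → E) :
    Measurable fun X => (κ • op a b (fderiv ℝ s X) + ε • 1).det := by
  simp only [← mt_det, Matrix.det_apply', mt_apply]
  refine Finset.measurable_sum _ fun σ _ => Measurable.const_mul ?_ _
  refine Finset.measurable_prod _ fun i _ => Measurable.const_inner ?_
  simp only [_root_.add_apply, _root_.smul_apply, op_apply]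
  exact ((((measurable_fderiv_apply_const ℝ s _).const_smul a).add
    ((measurable_fderiv_apply_const ℝ s _).const_smul b)).const_smul κ).add_const _

theorem contour_eps {W₁ W₂ : E × E → E} {C : ℝ≥0} (hW₁ : LipschitzWith C W₁)
    (hW₂ : LipschitzWith C W₂) {D : ℝ} (b₁ : ∀ X, ‖W₁ X‖ ≤ D) (b₂ : ∀ X, ‖W₂ X‖ ≤ D) {ε : ℝ}
    (hε : 0 < ε) {F : E × E → ℝ} (hF : Integrable F)
    (hle : ∀ᵐ X, ‖cdI (p1 (fderiv ℝ W₁ X) + p2 (fderiv ℝ W₂ X) + ε • 1)
      (p2 (fderiv ℝ W₁ X) - p1 (fderiv ℝ W₂ X))‖ *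
        Real.exp (-(⟪X.1, W₁ X⟫ + ⟪X.2, W₂ X⟫)) ≤ F X) :
    (2 * Real.pi) ^ Module.finrank ℝ E ≤ ∫ X, F X := by
  set R : E × E → E × E := fun X => (W₁ X, W₂ X) with hR
  set S : E × E → E × E := fun X => (-W₂ X, W₁ X) with hS
  have lR : LipschitzWith C R := by simpa using hW₁.prodMk hW₂
  have lS : LipschitzWith C S := by simpa using hW₂.neg.prodMk hW₁
  have bR : ∀ X, ‖R X‖ ≤ D := fun X => by
    rw [hR, Prod.norm_mk]; exact max_le (b₁ X) (b₂ X)
  have bS : ∀ X, ‖S X‖ ≤ D := fun X => by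
    rw [hS, Prod.norm_mk, norm_neg]; exact max_le (b₂ X) (b₁ X)
  have h1 := contour2 lR lS bR bS (l := ε / 2) (by positivity) ((ε⁻¹ : ℝ) : ℂ)
    (((ε⁻¹ : ℝ) : ℂ) * Complex.I)
  have h2 := norm_integral_le_of_norm_le (μ := volume)
    (f := cint R S (ε / 2) ((ε⁻¹ : ℝ) : ℂ) (((ε⁻¹ : ℝ) : ℂ) * Complex.I))
    (hF.const_mul (ε⁻¹ ^ Module.finrank ℝ E)) ?_
  · rw [h1, Complex.norm_real, Real.norm_eq_abs, abs_of_pos (by positivity),
      integral_const_mul] at h2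
    have e : (Real.pi / (ε / 2)) ^ Module.finrank ℝ E =
        ε⁻¹ ^ Module.finrank ℝ E * (2 * Real.pi) ^ Module.finrank ℝ E := by
      rw [← mul_pow]; congr 1; field_simp
    rw [e] at h2
    exact le_of_mul_le_mul_left h2 (by positivity)
  · filter_upwards [hle, hW₁.ae_differentiableAt, hW₂.ae_differentiableAt] with X hX d₁ d₂
    have e1 : fderiv ℝ R X = (fderiv ℝ W₁ X).prod (fderiv ℝ W₂ X) :=
      (d₁.hasFDerivAt.prodMk d₂.hasFDerivAt).fderiv
    have e2 : fderiv ℝ S X = (-fderiv ℝ W₂ X).prod (fderiv ℝ W₁ X) :=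
      (d₂.hasFDerivAt.neg.prodMk d₁.hasFDerivAt).fderiv
    unfold cint
    rw [e1, e2, cd2_iso _ (by positivity), inv_inv, norm_mul, norm_mul, norm_pow,
      Complex.norm_real, Real.norm_eq_abs, abs_of_pos (by positivity), mul_assoc, Complex.norm_exp]
    refine mul_le_mul_of_nonneg_left (le_trans (mul_le_mul_of_nonneg_left
      (Real.exp_le_exp.2 ?_) (norm_nonneg _)) hX) (by positivity)
    have e3 : ip (S X) (S X) = ip (R X) (R X) := by
      simp only [ip, hS, hR, inner_neg_neg]; ring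
    have e4 : ⟪X.1, W₁ X⟫ + ⟪X.2, W₂ X⟫ = ip X (R X) := rfl
    have e5 : 0 ≤ ip X X := by rw [ip_self]; positivity
    rw [e3, e4]
    generalize ip X X = a0 at *
    generalize ip X (R X) = a1
    generalize ip X (S X) = a2
    generalize ip (R X) (R X) = a3
    generalize ip (R X) (S X) = a4
    have e6 : (-((ε / 2 : ℝ) : ℂ) * ((a0 : ℂ) + 2 * ((ε⁻¹ : ℝ) : ℂ) * a1 +
        2 * (((ε⁻¹ : ℝ) : ℂ) * Complex.I) * a2 + ((ε⁻¹ : ℝ) : ℂ) ^ 2 * a3 +
        2 * ((ε⁻¹ : ℝ) : ℂ) * (((ε⁻¹ : ℝ) : ℂ) * Complex.I) * a4 +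
        (((ε⁻¹ : ℝ) : ℂ) * Complex.I) ^ 2 * a3)) =
        ((-(ε / 2) * a0 - ε * ε⁻¹ * a1 : ℝ) : ℂ) +
          ((-(ε * ε⁻¹ * a2) - ε * ε⁻¹ * ε⁻¹ * a4 : ℝ) : ℂ) * Complex.I := by
      have := Complex.I_mul_I
      push_cast
      linear_combination (-(ε / 2 : ℂ) * (ε : ℂ)⁻¹ ^ 2 * a3) * this
    rw [e6, Complex.add_re, Complex.ofReal_re, Complex.re_ofReal_mul, Complex.I_re,
      mul_inv_cancel₀ hε.ne']
    nlinarith

/-- a chart -/
def chart (a b : ℝ) (s : E × E → E) (X : E × E) : E × E := (a • X.1 + b • X.2, s X)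

theorem chart_le {a : ℝ} (ha : a ≠ 0) (b : ℝ) {s : E × E → E} {C : ℝ≥0} (hs : LipschitzWith C s)
    (hi : ∀ X Y, chart a b s X = chart a b s Y → ∀ t : ℝ, 0 ≤ t → t ≤ 1 →
      chart a b s (X + t • (Y - X)) = chart a b s X) (g : E × E → ℝ≥0∞) :
    ∫⁻ X, ENNReal.ofReal |(op a (-b) (fderiv ℝ s X)).det| * g (chart a b s X) ≤ ∫⁻ Y, g Y := by
  set U : Set (E × E) := {X | DifferentiableAt ℝ s X} with hU
  have hUm : MeasurableSet U := measurableSet_of_differentiableAt ℝ s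
  have hU0 : volume Uᶜ = 0 := hs.ae_differentiableAt
  have hder : ∀ X ∈ U, HasFDerivAt (chart a b s) ((a • ContinuousLinearMap.fst ℝ E E +
      b • ContinuousLinearMap.snd ℝ E E).prod (fderiv ℝ s X)) X := fun X hX =>
    (a • ContinuousLinearMap.fst ℝ E E +
      b • ContinuousLinearMap.snd ℝ E E).hasFDerivAt.prodMk hX.hasFDerivAt
  have hlow := area_lower volume (f := chart a b s) hUm
    (fun X hX => (hder X hX).differentiableAt) (fun X hX Y _ hXY hne =>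
      det_eq_zero_of_segment (d := Y - X) (hder X hX).differentiableAt
        (sub_ne_zero.2 hne.symm) (hi X Y hXY)) g
  refine le_trans ?_ hlow
  rw [← Measure.restrict_eq_self_of_ae_mem (s := U) hU0]
  conv_rhs => rw [Measure.restrict_restrict hUm, inter_self]
  refine setLIntegral_mono' hUm fun X hX => le_of_eq ?_
  unfold jac
  rw [(hder X hX).fderiv, det_chart ha, op, neg_smul, ← sub_eq_add_neg]

theorem two_charts {W₁ W₂ s₁ s₂ : E × E → E} {C : ℝ≥0} (hW₁ : LipschitzWith C W₁)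
    (hW₂ : LipschitzWith C W₂) (hs₁ : LipschitzWith C s₁) (hs₂ : LipschitzWith C s₂) {D : ℝ}
    (b₁ : ∀ X, ‖W₁ X‖ ≤ D) (b₂ : ∀ X, ‖W₂ X‖ ≤ D) {a b κ : ℝ} (ha : a ≠ 0) (hκ : 0 < κ)
    {g : E × E → ℝ} (hg0 : ∀ Y, 0 ≤ g Y) (hgm : Measurable g)
    (hae : ∀ᵐ X, ((op a b (fderiv ℝ s₁ X) : E →L[ℝ] E) : E →ₗ[ℝ] E).IsPositive ∧
      ((op (-a) b (fderiv ℝ s₂ X) : E →L[ℝ] E) : E →ₗ[ℝ] E).IsPositive ∧ ∀ x₁ x₂ y₁ y₂ : E,
      2 * (⟪x₁, (p1 (fderiv ℝ W₁ X) + p2 (fderiv ℝ W₂ X)) y₁⟫ +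
        ⟪x₂, (p1 (fderiv ℝ W₁ X) + p2 (fderiv ℝ W₂ X)) y₂⟫ -
        ⟪x₁, (p2 (fderiv ℝ W₁ X) - p1 (fderiv ℝ W₂ X)) y₂⟫ +
        ⟪x₂, (p2 (fderiv ℝ W₁ X) - p1 (fderiv ℝ W₂ X)) y₁⟫) ≤
      κ * (⟪x₁, op a b (fderiv ℝ s₁ X) x₁⟫ + ⟪x₂, op a b (fderiv ℝ s₁ X) x₂⟫ +
        (⟪y₁, op (-a) b (fderiv ℝ s₂ X) y₁⟫ + ⟪y₂, op (-a) b (fderiv ℝ s₂ X) y₂⟫)))
    (hi₁ : ∀ X Y, chart a (-b) s₁ X = chart a (-b) s₁ Y → ∀ t : ℝ, 0 ≤ t → t ≤ 1 →
      chart a (-b) s₁ (X + t • (Y - X)) = chart a (-b) s₁ X)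
    (hi₂ : ∀ X Y, chart a b s₂ X = chart a b s₂ Y → ∀ t : ℝ, 0 ≤ t → t ≤ 1 →
      chart a b s₂ (X + t • (Y - X)) = chart a b s₂ X)
    (hexp : ∀ X, Real.exp (-(⟪X.1, W₁ X⟫ + ⟪X.2, W₂ X⟫)) ^ 2 ≤
      g (chart a (-b) s₁ X) * g (chart a b s₂ X))
    (hint : Integrable fun X : E × E => Real.exp (-(⟪X.1, W₁ X⟫ + ⟪X.2, W₂ X⟫))) :
    ENNReal.ofReal ((2 * Real.pi / κ) ^ Module.finrank ℝ E) ≤ ∫⁻ Y, ENNReal.ofReal (g Y) := by
  set n := Module.finrank ℝ E with hn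
  set e : E × E → ℝ := fun X => Real.exp (-(⟪X.1, W₁ X⟫ + ⟪X.2, W₂ X⟫)) with he
  set F : ℝ → E × E → ℝ := fun ε X => √((κ • op a b (fderiv ℝ s₁ X) + ε • 1).det *
    (κ • op (-a) b (fderiv ℝ s₂ X) + ε • 1).det) * e X with hF
  obtain ⟨M, hM⟩ := exists_det_bound (E := E) (κ * ((|a| + |b|) * C) + 1)
  have hM0 : 0 ≤ M := (abs_nonneg _).trans (hM 0 (by rw [norm_zero]; positivity))
  have hMb : ∀ (a' : ℝ) (s : E × E → E), |a'| = |a| → LipschitzWith C s → ∀ (X : E × E) (ε : ℝ),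
      |ε| ≤ 1 → |(κ • op a' b (fderiv ℝ s X) + ε • 1).det| ≤ M := by
    intro a' s ha' hs X ε hε
    refine hM _ ((norm_add_le _ _).trans (add_le_add ?_ ?_))
    · rw [norm_smul, Real.norm_eq_abs, abs_of_pos hκ, ← ha']
      exact mul_le_mul_of_nonneg_left (norm_op_le a' b hs X) hκ.le
    · rw [norm_smul, Real.norm_eq_abs]
      exact mul_le_one₀ hε (norm_nonneg _) ContinuousLinearMap.norm_id_le
  have hFm : ∀ ε, AEStronglyMeasurable (F ε) volume := fun ε =>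
    (((measurable_det_op a b κ ε s₁).mul
      (measurable_det_op (-a) b κ ε s₂)).sqrt.aestronglyMeasurable).mul hint.1
  have hFb : ∀ ε : ℝ, |ε| ≤ 1 → ∀ X, ‖F ε X‖ ≤ M * e X := by
    intro ε hε X
    rw [hF, norm_mul, Real.norm_eq_abs, Real.norm_eq_abs, abs_of_nonneg (Real.sqrt_nonneg _),
      abs_of_pos (Real.exp_pos _)]
    refine mul_le_mul_of_nonneg_right (Real.sqrt_le_iff.2 ⟨hM0, ?_⟩) (Real.exp_pos _).le
    refine (le_abs_self _).trans ?_
    rw [abs_mul, sq]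
    exact mul_le_mul (hMb a s₁ rfl hs₁ X ε hε) (hMb (-a) s₂ (abs_neg a) hs₂ X ε hε)
      (abs_nonneg _) hM0
  have hFi : ∀ ε : ℝ, |ε| ≤ 1 → Integrable (F ε) := fun ε hε =>
    (hint.const_mul M).mono' (hFm ε) (Eventually.of_forall (hFb ε hε))
  have hlim : Tendsto (fun ε : ℝ => ∫ X, F ε X) (𝓝[>] 0) (𝓝 (∫ X, F 0 X)) := by
    refine tendsto_integral_filter_of_dominated_convergence _ (Eventually.of_forall hFm) ?_
      (hint.const_mul M) (Eventually.of_forall fun X => ?_)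
    · filter_upwards [Ioo_mem_nhdsGT (zero_lt_one' ℝ)] with ε hε
      exact Eventually.of_forall (hFb ε (by rw [abs_of_pos hε.1]; exact hε.2.le))
    · refine Tendsto.mono_left (Continuous.tendsto ?_ 0) nhdsWithin_le_nhds
      refine Continuous.mul (Continuous.sqrt (Continuous.mul ?_ ?_)) continuous_const <;>
        exact ContinuousLinearMap.continuous_det.comp (by fun_prop)
  have hge : (2 * Real.pi) ^ n ≤ ∫ X, F 0 X := by
    refine ge_of_tendsto hlim ?_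
    filter_upwards [Ioo_mem_nhdsGT (zero_lt_one' ℝ)] with ε hε
    refine contour_eps hW₁ hW₂ b₁ b₂ hε.1 (hFi ε (by rw [abs_of_pos hε.1]; exact hε.2.le)) ?_
    filter_upwards [hae] with X hX
    refine mul_le_mul_of_nonneg_right (cdI_le (A := κ • op a b (fderiv ℝ s₁ X))
      (C := κ • op (-a) b (fderiv ℝ s₂ X)) (hX.1.smul_of_nonneg hκ.le)
      (hX.2.1.smul_of_nonneg hκ.le) hε.1 fun x₁ x₂ y₁ y₂ => ?_) (Real.exp_pos _).le
    have := hX.2.2 x₁ x₂ y₁ y₂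
    simp only [_root_.smul_apply, inner_smul_right]
    linarith
  have c₁ := chart_le ha (-b) hs₁ hi₁ fun Y => ENNReal.ofReal (g Y)
  have c₂ := chart_le ha b hs₂ hi₂ fun Y => ENNReal.ofReal (g Y)
  rw [neg_neg] at c₁
  set I := ∫⁻ Y, ENNReal.ofReal (g Y) with hI
  have hpt : ∀ X, F 0 X ≤ κ ^ n / 2 * (|(op a b (fderiv ℝ s₁ X)).det| * g (chart a (-b) s₁ X) +
      |(op a (-b) (fderiv ℝ s₂ X)).det| * g (chart a b s₂ X)) := by
    intro X
    have e1 : ∀ (c : ℝ) (A : E →L[ℝ] E), (c • A).det = c ^ n * A.det := fun c A =>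
      LinearMap.det_smul c (A : E →ₗ[ℝ] E)
    have e2 : op (-a) b (fderiv ℝ s₂ X) = (-1 : ℝ) • op a (-b) (fderiv ℝ s₂ X) := by
      unfold op; module
    have e3 : |(op (-a) b (fderiv ℝ s₂ X)).det| = |(op a (-b) (fderiv ℝ s₂ X)).det| := by
      rw [e2, e1, abs_mul, abs_pow, abs_neg, abs_one, one_pow, one_mul]
    simp only [hF, zero_smul, add_zero]
    rw [e1, e1, ← e3]
    have h1 := hexp X
    have h2 : 0 < e X := Real.exp_pos _
    have g1 := hg0 (chart a (-b) s₁ X)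
    have g2 := hg0 (chart a b s₂ X)
    change e X ^ 2 ≤ _ at h1
    generalize e X = x at *
    generalize g (chart a (-b) s₁ X) = u at *
    generalize g (chart a b s₂ X) = v at *
    generalize (op a b (fderiv ℝ s₁ X)).det = p at *
    generalize (op (-a) b (fderiv ℝ s₂ X)).det = q at *
    have hk : 0 < κ ^ n := by positivity
    generalize κ ^ n = k at *
    have h3 : √(k * p * (k * q)) * x = √(k * p * (k * q) * x ^ 2) := by
      rw [Real.sqrt_mul' _ (sq_nonneg x), Real.sqrt_sq h2.le]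
    rw [h3]
    refine Real.sqrt_le_iff.2 ⟨by positivity, ?_⟩
    have h4 : p * q ≤ |p| * |q| := by rw [← abs_mul]; exact le_abs_self _
    have h5 : p * q * x ^ 2 ≤ |p| * |q| * (u * v) :=
      (mul_le_mul_of_nonneg_right h4 (sq_nonneg x)).trans
        (mul_le_mul_of_nonneg_left h1 (by positivity))
    have h6 : |p| * |q| * (u * v) ≤ ((|p| * u + |q| * v) / 2) ^ 2 := by
      nlinarith [sq_nonneg (|p| * u - |q| * v)]
    calc k * p * (k * q) * x ^ 2 = k ^ 2 * (p * q * x ^ 2) := by ring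
      _ ≤ k ^ 2 * ((|p| * u + |q| * v) / 2) ^ 2 := by gcongr; exact h5.trans h6
      _ = _ := by ring
  have hmain : ENNReal.ofReal ((2 * Real.pi) ^ n) ≤ ENNReal.ofReal (κ ^ n) * I := by
    refine (ENNReal.ofReal_le_ofReal hge).trans ?_
    rw [ofReal_integral_eq_lintegral_ofReal (hFi 0 (by simp))
      (Eventually.of_forall fun X => by positivity)]
    have hc : Measurable (chart a (-b) s₁) := by
      have := hs₁.continuous
      unfold chart
      fun_prop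
    have hm : Measurable fun X => ENNReal.ofReal |(op a b (fderiv ℝ s₁ X)).det| *
        ENNReal.ofReal (g (chart a (-b) s₁ X)) := by
      have := measurable_det_op a b 1 0 s₁
      simp only [one_smul, zero_smul, add_zero] at this
      exact this.abs.ennreal_ofReal.mul (hgm.comp hc).ennreal_ofReal
    calc ∫⁻ X, ENNReal.ofReal (F 0 X)
        ≤ ∫⁻ X, ENNReal.ofReal (κ ^ n / 2) * (ENNReal.ofReal |(op a b (fderiv ℝ s₁ X)).det| *
          ENNReal.ofReal (g (chart a (-b) s₁ X)) +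
          ENNReal.ofReal |(op a (-b) (fderiv ℝ s₂ X)).det| *
            ENNReal.ofReal (g (chart a b s₂ X))) := by
          refine lintegral_mono fun X => ?_
          rw [← ENNReal.ofReal_mul (abs_nonneg _), ← ENNReal.ofReal_mul (abs_nonneg _),
            ← ENNReal.ofReal_add (mul_nonneg (abs_nonneg _) (hg0 _))
              (mul_nonneg (abs_nonneg _) (hg0 _)), ← ENNReal.ofReal_mul (by positivity)]
          exact ENNReal.ofReal_le_ofReal (hpt X)
      _ ≤ ENNReal.ofReal (κ ^ n / 2) * (I + I) := by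
          rw [lintegral_const_mul' _ _ ENNReal.ofReal_ne_top, lintegral_add_left hm]
          gcongr
      _ = ENNReal.ofReal (κ ^ n) * I := by
          rw [← two_mul, ← mul_assoc, ← ENNReal.ofReal_ofNat 2,
            ← ENNReal.ofReal_mul (by positivity)]
          congr 2; ring
  have hk : 0 < κ ^ n := by positivity
  rw [div_pow, ENNReal.ofReal_div_of_pos hk]
  exact ENNReal.div_le_of_le_mul' hmain

end Pool.Agent.MP_5f4cdd_gt.NW
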