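import Mathlib

set_option autoImplicit false

namespace Pool.Agent.MP_5f4cdd_gt.NW

theorem hX (x c : ℝ) (k : ℕ) : HasDerivAt (fun x : ℝ => c * (2 * x - 1) ^ k)
    (c * (k * (2 * x - 1) ^ (k - 1) * 2)) x := by
  have h : HasDerivAt (fun x : ℝ => 2 * x - 1) 2 x := by
    simpa using ((hasDerivAt_id x).const_mul 2).sub_const 1
  exact (h.pow k).const_mul c

theorem good_of {X p q u w b k : ℝ} (hb : 0 < b) (hk : 0 < k ^ 2) (hp : 0 < p)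
    (h : (u ^ 2 + X ^ 2 * w ^ 2) * (p ^ 2 + X ^ 2 * q ^ 2) ≤ k ^ 2 * (b ^ 2 * p ^ 2 - X ^ 2 * q ^ 2)) :
    0 < p ∧ 0 ≤ X * q + b * p ∧ 0 ≤ -(X * q) + b * p ∧
      (u ^ 2 + (X * w) ^ 2) * (p ^ 2 + (X * q) ^ 2) ≤ k ^ 2 * ((X * q + b * p) * (-(X * q) + b * p)) := by
  have h0 : 0 < b * p := mul_pos hb hp
  have h1 : (u ^ 2 + (X * w) ^ 2) * (p ^ 2 + (X * q) ^ 2) ≤
      k ^ 2 * ((X * q + b * p) * (-(X * q) + b * p)) := by
    calc _ = (u ^ 2 + X ^ 2 * w ^ 2) * (p ^ 2 + X ^ 2 * q ^ 2) := by ring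
      _ ≤ _ := h
      _ = _ := by ring
  have h2 : 0 ≤ k ^ 2 * ((X * q + b * p) * (-(X * q) + b * p)) := le_trans (by positivity) h1
  have h3 : 0 ≤ (X * q + b * p) * (-(X * q) + b * p) := nonneg_of_mul_nonneg_right h2 hk
  refine ⟨hp, ?_, ?_, h1⟩
  · by_contra hc
    push Not at hc
    nlinarith
  · by_contra hc
    push Not at hc
    nlinarith

/-- first coordinate of the curve -/
noncomputable def pN (x : ℝ) : ℝ := (8491 / 2500) * (2 * x - 1) ^ 0 + (-71849 / 10000) * (2 * x - 1) ^ 2 + (117727 / 10000) * (2 * x - 1) ^ 4 + (-71031 / 5000) * (2 * x - 1) ^ 6 + (112487 / 10000) * (2 * x - 1) ^ 8 + (-9847 / 2000) * (2 * x - 1) ^ 10 + (1121 / 1250) * (2 * x - 1) ^ 12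
/-- second coordinate of the curve -/
noncomputable def qN (x : ℝ) : ℝ := (12881 / 2500) * (2 * x - 1) ^ 1 + (-96001 / 10000) * (2 * x - 1) ^ 3 + (8287 / 625) * (2 * x - 1) ^ 5 + (-27173 / 2000) * (2 * x - 1) ^ 7 + (88603 / 10000) * (2 * x - 1) ^ 9 + (-1259 / 400) * (2 * x - 1) ^ 11 + (4571 / 10000) * (2 * x - 1) ^ 13
/-- derivative of the first coordinate -/
noncomputable def dpN (x : ℝ) : ℝ := (-71849 / 2500) * (2 * x - 1) ^ 1 + (117727 / 1250) * (2 * x - 1) ^ 3 + (-213093 / 1250) * (2 * x - 1) ^ 5 + (112487 / 625) * (2 * x - 1) ^ 7 + (-9847 / 100) * (2 * x - 1) ^ 9 + (13452 / 625) * (2 * x - 1) ^ 11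
/-- derivative of the second coordinate -/
noncomputable def dqN (x : ℝ) : ℝ := (12881 / 1250) * (2 * x - 1) ^ 0 + (-288003 / 5000) * (2 * x - 1) ^ 2 + (16574 / 125) * (2 * x - 1) ^ 4 + (-190211 / 1000) * (2 * x - 1) ^ 6 + (797427 / 5000) * (2 * x - 1) ^ 8 + (-13849 / 200) * (2 * x - 1) ^ 10 + (59423 / 5000) * (2 * x - 1) ^ 12

theorem der_pN (x : ℝ) : HasDerivAt pN (dpN x) x := by
  refine HasDerivAt.congr_deriv (HasDerivAt.add (HasDerivAt.add (HasDerivAt.add (HasDerivAt.add (HasDerivAt.add (HasDerivAt.add (hX x _ 0) (hX x _ 2)) (hX x _ 4)) (hX x _ 6)) (hX x _ 8)) (hX x _ 10)) (hX x _ 12)) ?_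
  unfold dpN
  push_cast
  ring

theorem der_qN (x : ℝ) : HasDerivAt qN (dqN x) x := by
  refine HasDerivAt.congr_deriv (HasDerivAt.add (HasDerivAt.add (HasDerivAt.add (HasDerivAt.add (HasDerivAt.add (HasDerivAt.add (hX x _ 1) (hX x _ 3)) (hX x _ 5)) (hX x _ 7)) (hX x _ 9)) (hX x _ 11)) (hX x _ 13)) ?_
  unfold dqN
  push_cast
  ring

theorem cont_dpN : Continuous dpN := by unfold dpN; fun_prop
theorem cont_dqN : Continuous dqN := by unfold dqN; fun_prop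

theorem polyN {Y t : ℝ} (h0 : 0 ≤ Y) (h1 : 0 ≤ t) (ht : t = 1 - Y) :
    (((8491 / 2500) * Y ^ 0 + (-215547 / 10000) * Y ^ 1 + (117727 / 2000) * Y ^ 2 + (-497217 / 5000) * Y ^ 3 + (1012383 / 10000) * Y ^ 4 + (-108317 / 2000) * Y ^ 5 + (14573 / 1250) * Y ^ 6) ^ 2 + Y * ((12881 / 1250) * Y ^ 0 + (-96001 / 2500) * Y ^ 1 + (49722 / 625) * Y ^ 2 + (-27173 / 250) * Y ^ 3 + (88603 / 1000) * Y ^ 4 + (-3777 / 100) * Y ^ 5 + (31997 / 5000) * Y ^ 6) ^ 2) *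
      (((8491 / 2500) * Y ^ 0 + (-71849 / 10000) * Y ^ 1 + (117727 / 10000) * Y ^ 2 + (-71031 / 5000) * Y ^ 3 + (112487 / 10000) * Y ^ 4 + (-9847 / 2000) * Y ^ 5 + (1121 / 1250) * Y ^ 6) ^ 2 + Y * ((12881 / 2500) * Y ^ 0 + (-96001 / 10000) * Y ^ 1 + (8287 / 625) * Y ^ 2 + (-27173 / 2000) * Y ^ 3 + (88603 / 10000) * Y ^ 4 + (-1259 / 400) * Y ^ 5 + (4571 / 10000) * Y ^ 6) ^ 2) ≤
    (6089 / 2500) ^ 2 * ((13949 / 10000) ^ 2 * ((8491 / 2500) * Y ^ 0 + (-71849 / 10000) * Y ^ 1 + (117727 / 10000) * Y ^ 2 + (-71031 / 5000) * Y ^ 3 + (112487 / 10000) * Y ^ 4 + (-9847 / 2000) * Y ^ 5 + (1121 / 1250) * Y ^ 6) ^ 2 - Y * ((12881 / 2500) * Y ^ 0 + (-96001 / 10000) * Y ^ 1 + (8287 / 625) * Y ^ 2 + (-27173 / 2000) * Y ^ 3 + (88603 / 10000) * Y ^ 4 + (-1259 / 400) * Y ^ 5 + (4571 / 10000) * Y ^ 6) ^ 2) := by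
  have h : 0 ≤ t ^ 2 * ((311779160843174421201 / 3906250000000000000000) * Y ^ 0 * t ^ 24 + (16163277276559358267913 / 7812500000000000000000) * Y ^ 1 * t ^ 23 + (1050145924356404566447497 / 62500000000000000000000) * Y ^ 2 * t ^ 22 + (2252252609183558467116853 / 31250000000000000000000) * Y ^ 3 * t ^ 21 + (23613854105117265682732127 / 62500000000000000000000) * Y ^ 4 * t ^ 20 + (527970266520433739703879 / 250000000000000000000) * Y ^ 5 * t ^ 19 + (506039728863738561872326253 / 62500000000000000000000) * Y ^ 6 * t ^ 18 + (156345707735616140615588477 / 7812500000000000000000) * Y ^ 7 * t ^ 17 + (504536129451364597307995553 / 15625000000000000000000) * Y ^ 8 * t ^ 16 + (265314723775591767847581139 / 7812500000000000000000) * Y ^ 9 * t ^ 15 + (765010887622919766831783189 / 31250000000000000000000) * Y ^ 10 * t ^ 14 + (335818389998573394473311439 / 15625000000000000000000)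 * Y ^ 11 * t ^ 13 + (242073726497685528190636761 / 6250000000000000000000) * Y ^ 12 * t ^ 12 + (983117836002430253612456189 / 15625000000000000000000) * Y ^ 13 * t ^ 11 + (2152473070056918916743818509 / 31250000000000000000000) * Y ^ 14 * t ^ 10 + (79960189433931307900767233 / 1562500000000000000000) * Y ^ 15 * t ^ 9 + (408202032913973826991876861 / 15625000000000000000000) * Y ^ 16 * t ^ 8 + (1766548502364392203774993 / 195312500000000000000) * Y ^ 17 * t ^ 7 + (1042211765263750538906897 / 500000000000000000000) * Y ^ 18 * t ^ 6 + (11817019977385965267303829 / 31250000000000000000000) * Y ^ 19 * t ^ 5 + (6848123768462706924174351 / 62500000000000000000000) * Y ^ 20 * t ^ 4 + (1282088962548251960774131 / 31250000000000000000000) * Y ^ 21 * t ^ 3 + (590532956519881239164969 / 62500000000000000000000) * Y ^ 22 * t ^ 2 + (247051024078750609 / 250000000000000000)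 * Y ^ 23 * t ^ 1 + (67560329199810043 / 3125000000000000000) * Y ^ 24 * t ^ 0) := by
    positivity
  rw [← sub_nonneg]
  refine h.trans (le_of_eq ?_)
  subst ht
  ring

theorem posN {Y t : ℝ} (h0 : 0 ≤ Y) (h1 : 0 ≤ t) (ht : t = 1 - Y) :
    0 < (8491 / 2500) * Y ^ 0 + (-71849 / 10000) * Y ^ 1 + (117727 / 10000) * Y ^ 2 + (-71031 / 5000) * Y ^ 3 + (112487 / 10000) * Y ^ 4 + (-9847 / 2000) * Y ^ 5 + (1121 / 1250) * Y ^ 6 := by
  have h : 0 ≤ (7241 / 2500) * Y ^ 0 * t ^ 6 + (20387 / 2000) * Y ^ 1 * t ^ 5 + (96471 / 5000) * Y ^ 2 * t ^ 4 + (47409 / 2500) * Y ^ 3 * t ^ 3 + (108633 / 10000) * Y ^ 4 * t ^ 2 + (7 / 2) * Y ^ 5 * t ^ 1 + (1 / 2) * Y ^ 6 * t ^ 0 := by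
    positivity
  refine lt_of_lt_of_le (add_pos_of_pos_of_nonneg (by norm_num : (0 : ℝ) < 1 / 2) h) (le_of_eq ?_)
  subst ht
  ring

theorem goodN (x : ℝ) (h0 : 0 ≤ x) (h1 : x ≤ 1) : 0 < pN x ∧ 0 ≤ qN x + (13949 / 10000) * pN x ∧
    0 ≤ -qN x + (13949 / 10000) * pN x ∧
    ((pN x + (x - 1 / 2) * dpN x) ^ 2 + (qN x + (x - 1 / 2) * dqN x) ^ 2) *
      (pN x ^ 2 + qN x ^ 2) ≤
      (6089 / 2500) ^ 2 * ((qN x + (13949 / 10000) * pN x) * (-qN x + (13949 / 10000) * pN x)) := by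
  have a0 : 0 ≤ (2 * x - 1) ^ 2 := sq_nonneg _
  have a1 : 0 ≤ 1 - (2 * x - 1) ^ 2 := by nlinarith
  have b1 := polyN a0 a1 rfl
  have b2 := posN a0 a1 rfl
  have e1 : pN x = (8491 / 2500) * ((2 * x - 1) ^ 2) ^ 0 + (-71849 / 10000) * ((2 * x - 1) ^ 2) ^ 1 + (117727 / 10000) * ((2 * x - 1) ^ 2) ^ 2 + (-71031 / 5000) * ((2 * x - 1) ^ 2) ^ 3 + (112487 / 10000) * ((2 * x - 1) ^ 2) ^ 4 + (-9847 / 2000) * ((2 * x - 1) ^ 2) ^ 5 + (1121 / 1250) * ((2 * x - 1) ^ 2) ^ 6 := by unfold pN; ring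
  have e2 : qN x = (2 * x - 1) * ((12881 / 2500) * ((2 * x - 1) ^ 2) ^ 0 + (-96001 / 10000) * ((2 * x - 1) ^ 2) ^ 1 + (8287 / 625) * ((2 * x - 1) ^ 2) ^ 2 + (-27173 / 2000) * ((2 * x - 1) ^ 2) ^ 3 + (88603 / 10000) * ((2 * x - 1) ^ 2) ^ 4 + (-1259 / 400) * ((2 * x - 1) ^ 2) ^ 5 + (4571 / 10000) * ((2 * x - 1) ^ 2) ^ 6) := by unfold qN; ring
  have e3 : pN x + (x - 1 / 2) * dpN x = (8491 / 2500) * ((2 * x - 1) ^ 2) ^ 0 + (-215547 / 10000) * ((2 * x - 1) ^ 2) ^ 1 + (117727 / 2000) * ((2 * x - 1) ^ 2) ^ 2 + (-497217 / 5000) * ((2 * x - 1) ^ 2) ^ 3 + (1012383 / 10000) * ((2 * x - 1) ^ 2) ^ 4 + (-108317 / 2000) * ((2 * x - 1) ^ 2) ^ 5 + (14573 / 1250) * ((2 * x - 1) ^ 2) ^ 6 := by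
    unfold pN dpN; ring
  have e4 : qN x + (x - 1 / 2) * dqN x = (2 * x - 1) * ((12881 / 1250) * ((2 * x - 1) ^ 2) ^ 0 + (-96001 / 2500) * ((2 * x - 1) ^ 2) ^ 1 + (49722 / 625) * ((2 * x - 1) ^ 2) ^ 2 + (-27173 / 250) * ((2 * x - 1) ^ 2) ^ 3 + (88603 / 1000) * ((2 * x - 1) ^ 2) ^ 4 + (-3777 / 100) * ((2 * x - 1) ^ 2) ^ 5 + (31997 / 5000) * ((2 * x - 1) ^ 2) ^ 6) := by
    unfold qN dqN; ring
  rw [← e3, ← e1] at b1
  rw [← e1] at b2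
  rw [e4, e2]
  exact good_of (by norm_num) (by norm_num) b2 b1

/-- first coordinate of the curve -/
noncomputable def pS (x : ℝ) : ℝ := (8307 / 5000) * (2 * x - 1) ^ 0 + (-2497 / 10000) * (2 * x - 1) ^ 2 + (173 / 10000) * (2 * x - 1) ^ 4
/-- second coordinate of the curve -/
noncomputable def qS (x : ℝ) : ℝ := (6441 / 10000) * (2 * x - 1) ^ 1 + (-757 / 10000) * (2 * x - 1) ^ 3 + (13 / 5000) * (2 * x - 1) ^ 5
/-- derivative of the first coordinate -/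
noncomputable def dpS (x : ℝ) : ℝ := (-2497 / 2500) * (2 * x - 1) ^ 1 + (173 / 1250) * (2 * x - 1) ^ 3
/-- derivative of the second coordinate -/
noncomputable def dqS (x : ℝ) : ℝ := (6441 / 5000) * (2 * x - 1) ^ 0 + (-2271 / 5000) * (2 * x - 1) ^ 2 + (13 / 500) * (2 * x - 1) ^ 4

theorem der_pS (x : ℝ) : HasDerivAt pS (dpS x) x := by
  refine HasDerivAt.congr_deriv (HasDerivAt.add (HasDerivAt.add (hX x _ 0) (hX x _ 2)) (hX x _ 4)) ?_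
  unfold dpS
  push_cast
  ring

theorem der_qS (x : ℝ) : HasDerivAt qS (dqS x) x := by
  refine HasDerivAt.congr_deriv (HasDerivAt.add (HasDerivAt.add (hX x _ 1) (hX x _ 3)) (hX x _ 5)) ?_
  unfold dqS
  push_cast
  ring

theorem cont_dpS : Continuous dpS := by unfold dpS; fun_prop
theorem cont_dqS : Continuous dqS := by unfold dqS; fun_prop

theorem polyS {Y t : ℝ} (h0 : 0 ≤ Y) (h1 : 0 ≤ t) (ht : t = 1 - Y) :
    (((8307 / 5000) * Y ^ 0 + (-7491 / 10000) * Y ^ 1 + (173 / 2000) * Y ^ 2) ^ 2 + Y * ((6441 / 5000) * Y ^ 0 + (-757 / 2500) * Y ^ 1 + (39 / 2500) * Y ^ 2) ^ 2) *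
      (((8307 / 5000) * Y ^ 0 + (-2497 / 10000) * Y ^ 1 + (173 / 10000) * Y ^ 2) ^ 2 + Y * ((6441 / 10000) * Y ^ 0 + (-757 / 10000) * Y ^ 1 + (13 / 5000) * Y ^ 2) ^ 2) ≤
    (8311 / 5000) ^ 2 * ((1) ^ 2 * ((8307 / 5000) * Y ^ 0 + (-2497 / 10000) * Y ^ 1 + (173 / 10000) * Y ^ 2) ^ 2 - Y * ((6441 / 10000) * Y ^ 0 + (-757 / 10000) * Y ^ 1 + (13 / 5000) * Y ^ 2) ^ 2) := by
  have h : 0 ≤ ((573372922941 / 78125000000000) * Y ^ 0 * t ^ 10 + (87329335763187 / 1250000000000000) * Y ^ 1 * t ^ 9 + (760869370301821 / 2500000000000000) * Y ^ 2 * t ^ 8 + (7908246193540503 / 10000000000000000) * Y ^ 3 * t ^ 7 + (3371813297732239 / 2500000000000000) * Y ^ 4 * t ^ 6 + (15734997758845443 / 10000000000000000) * Y ^ 5 * t ^ 5 + (6364324508347031 / 5000000000000000) * Y ^ 6 * t ^ 4 + (1769362700380211 / 2500000000000000) * Y ^ 7 * t ^ 3 + (3257070254129 / 12500000000000) * Y ^ 8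 * t ^ 2 + (144597110977 / 2500000000000) * Y ^ 9 * t ^ 1 + (74112801499 / 12500000000000) * Y ^ 10 * t ^ 0) := by
    positivity
  rw [← sub_nonneg]
  refine h.trans (le_of_eq ?_)
  subst ht
  ring

theorem posS {Y t : ℝ} (h0 : 0 ≤ Y) (h1 : 0 ≤ t) (ht : t = 1 - Y) :
    0 < (8307 / 5000) * Y ^ 0 + (-2497 / 10000) * Y ^ 1 + (173 / 10000) * Y ^ 2 := by
  have h : 0 ≤ (5807 / 5000) * Y ^ 0 * t ^ 2 + (20731 / 10000) * Y ^ 1 * t ^ 1 + (929 / 1000) * Y ^ 2 * t ^ 0 := by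
    positivity
  refine lt_of_lt_of_le (add_pos_of_pos_of_nonneg (by norm_num : (0 : ℝ) < 1 / 2) h) (le_of_eq ?_)
  subst ht
  ring

theorem goodS (x : ℝ) (h0 : 0 ≤ x) (h1 : x ≤ 1) : 0 < pS x ∧ 0 ≤ qS x + (1) * pS x ∧
    0 ≤ -qS x + (1) * pS x ∧
    ((pS x + (x - 1 / 2) * dpS x) ^ 2 + (qS x + (x - 1 / 2) * dqS x) ^ 2) *
      (pS x ^ 2 + qS x ^ 2) ≤
      (8311 / 5000) ^ 2 * ((qS x + (1) * pS x) * (-qS x + (1) * pS x)) := by
  have a0 : 0 ≤ (2 * x - 1) ^ 2 := sq_nonneg _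
  have a1 : 0 ≤ 1 - (2 * x - 1) ^ 2 := by nlinarith
  have b1 := polyS a0 a1 rfl
  have b2 := posS a0 a1 rfl
  have e1 : pS x = (8307 / 5000) * ((2 * x - 1) ^ 2) ^ 0 + (-2497 / 10000) * ((2 * x - 1) ^ 2) ^ 1 + (173 / 10000) * ((2 * x - 1) ^ 2) ^ 2 := by unfold pS; ring
  have e2 : qS x = (2 * x - 1) * ((6441 / 10000) * ((2 * x - 1) ^ 2) ^ 0 + (-757 / 10000) * ((2 * x - 1) ^ 2) ^ 1 + (13 / 5000) * ((2 * x - 1) ^ 2) ^ 2) := by unfold qS; ring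
  have e3 : pS x + (x - 1 / 2) * dpS x = (8307 / 5000) * ((2 * x - 1) ^ 2) ^ 0 + (-7491 / 10000) * ((2 * x - 1) ^ 2) ^ 1 + (173 / 2000) * ((2 * x - 1) ^ 2) ^ 2 := by
    unfold pS dpS; ring
  have e4 : qS x + (x - 1 / 2) * dqS x = (2 * x - 1) * ((6441 / 5000) * ((2 * x - 1) ^ 2) ^ 0 + (-757 / 2500) * ((2 * x - 1) ^ 2) ^ 1 + (39 / 2500) * ((2 * x - 1) ^ 2) ^ 2) := by
    unfold qS dqS; ring
  rw [← e3, ← e1] at b1
  rw [← e1] at b2
  rw [e4, e2]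
  exact good_of (by norm_num) (by norm_num) b2 b1

end Pool.Agent.MP_5f4cdd_gt.NW
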