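import Pool.Agent.MP_5f4cdd_gt.NW.Sym
import Pool.Agent.MP_5f4cdd_gt.NW.Num
import Pool.Agent.MP_5f4cdd_gt.T4Main

set_option autoImplicit false
set_option linter.unusedSectionVars false
open Set Filter Topology MeasureTheory Metric
open scoped RealInnerProductSpace NNReal ENNReal Pointwise

namespace Pool.Agent.MP_5f4cdd_gt.NW

open T4

variable {E : Type*} [NormedAddCommGroup E] [InnerProductSpace ℝ E] [FiniteDimensional ℝ E]
  [MeasurableSpace E] [BorelSpace E] {K : Set E} {v : E → ℝ}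

theorem ball_smul {ρ s : ℝ} (hs : 0 < s) (hball : closedBall 0 ρ ⊆ K) :
    closedBall 0 (s * ρ) ⊆ s • K := by
  intro y hy
  rw [mem_smul_set_iff_inv_smul_mem₀ hs.ne']
  refine hball ?_
  rw [mem_closedBall_zero_iff] at hy ⊢
  rw [norm_smul, Real.norm_eq_abs, abs_of_pos (inv_pos.2 hs), inv_mul_le_iff₀ hs]
  exact hy

theorem fun_general (hK : IsCompact K) (hvc : ConvexOn ℝ K v) (hv : Continuous v) {ρ : ℝ}
    (hρ : 0 < ρ) (hball : closedBall 0 ρ ⊆ K) {h : E → ℝ} (hm : Measurable h)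
    (hh : ∀ w, ∃ y ∈ K, h w ≤ ⟪y, w⟫ - v y) :
    ENNReal.ofReal ((2 * Real.pi / (6089 / 2500)) ^ Module.finrank ℝ E) ≤
      (∫⁻ y in K, ENNReal.ofReal (Real.exp (-v y))) * ∫⁻ w, ENNReal.ofReal (Real.exp (-h w)) := by
  refine scale_limit hK hvc hv ⟨0, hball (mem_closedBall_self hρ.le)⟩ (fun s hs P hP hc => ?_) hm hh
  refine curve_bound hP (hK.smul s) hc (by fun_prop) (mul_pos hs hρ) (ball_smul hs hball)
    der_pN der_qN cont_dpN cont_dqN (by norm_num) (by norm_num) ?_ ?_ ?_ ?_ goodN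
  · norm_num [pN]
  · norm_num [qN]
  · norm_num [pN]
  · norm_num [qN]

theorem fun_sym (hK : IsCompact K) (hvc : ConvexOn ℝ K v) (hv : Continuous v)
    (hsym : ∀ y ∈ K, -y ∈ K ∧ v (-y) = v y) {ρ : ℝ}
    (hρ : 0 < ρ) (hball : closedBall 0 ρ ⊆ K) {h : E → ℝ} (hm : Measurable h)
    (hh : ∀ w, ∃ y ∈ K, h w ≤ ⟪y, w⟫ - v y) :
    ENNReal.ofReal ((2 * Real.pi / (8311 / 5000)) ^ Module.finrank ℝ E) ≤
      (∫⁻ y in K, ENNReal.ofReal (Real.exp (-v y))) * ∫⁻ w, ENNReal.ofReal (Real.exp (-h w)) := by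
  refine scale_limit hK hvc hv ⟨0, hball (mem_closedBall_self hρ.le)⟩ (fun s hs P hP hc => ?_) hm hh
  refine curve_bound_sym hP (hK.smul s) hc (by fun_prop) ?_ (mul_pos hs hρ) (ball_smul hs hball)
    der_pS der_qS cont_dpS cont_dqS (by norm_num) ?_ ?_ goodS
  · rintro _ ⟨y, hy, rfl⟩
    refine ⟨⟨-y, (hsym y hy).1, by simp⟩, ?_⟩
    simp only [smul_neg, smul_smul, inv_mul_cancel₀ hs.ne', one_smul]
    exact (hsym y hy).2
  · norm_num [pS, qS]
  · norm_num [pS, qS]

theorem gamma_int (n : ℕ) : ∫⁻ t in Ioi (0 : ℝ), ENNReal.ofReal (Real.exp (-t) * t ^ n)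
    = ENNReal.ofReal n.factorial := by
  have hs : (0 : ℝ) < n + 1 := by positivity
  have h1 := Real.GammaIntegral_convergent hs
  have h2 := Real.Gamma_eq_integral hs
  rw [Real.Gamma_nat_eq_factorial] at h2
  simp only [add_sub_cancel_right, Real.rpow_natCast] at h1 h2
  rw [h2, ofReal_integral_eq_lintegral_ofReal h1]
  filter_upwards [ae_restrict_mem measurableSet_Ioi] with t ht
  exact mul_nonneg (Real.exp_pos _).le (pow_nonneg (le_of_lt ht) n)

theorem two_exp {N T : ℝ} (hN : 0 < N) (hT : N < T) (H : ℝ) :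
    ∫⁻ σ : ℝ, ENNReal.ofReal (Real.exp (-(N * (1 - σ) + T * max (σ - 1 + H) 0))) =
      ENNReal.ofReal (N⁻¹ + (T - N)⁻¹) * ENNReal.ofReal (Real.exp (-(N * H))) := by
  have hd : 0 < T - N := sub_pos.2 hT
  rw [← lintegral_add_compl _ (measurableSet_Iic (a := 1 - H)), compl_Iic]
  have e1 : ∫⁻ σ in Iic (1 - H), ENNReal.ofReal (Real.exp (-(N * (1 - σ) + T * max (σ - 1 + H) 0)))
      = ENNReal.ofReal (Real.exp (-N) * (Real.exp (N * (1 - H)) / N)) := by
    rw [← integral_exp_mul_Iic hN, ← integral_const_mul, ofReal_integral_eq_lintegral_ofReal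
      ((integrableOn_exp_mul_Iic hN _).const_mul _) (Eventually.of_forall fun _ => by positivity)]
    refine setLIntegral_congr_fun measurableSet_Iic fun σ hσ => ?_
    have : σ ≤ 1 - H := hσ
    rw [max_eq_right (by linarith), ← Real.exp_add]
    congr 2; ring
  have e2 : ∫⁻ σ in Ioi (1 - H), ENNReal.ofReal (Real.exp (-(N * (1 - σ) + T * max (σ - 1 + H) 0)))
      = ENNReal.ofReal (Real.exp (-N + T * (1 - H)) * (-Real.exp ((N - T) * (1 - H)) / (N - T))) := by
    rw [← integral_exp_mul_Ioi (by linarith), ← integral_const_mul,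
      ofReal_integral_eq_lintegral_ofReal ((integrableOn_exp_mul_Ioi (by linarith) _).const_mul _)
      (Eventually.of_forall fun _ => by positivity)]
    refine setLIntegral_congr_fun measurableSet_Ioi fun σ hσ => ?_
    have : 1 - H < σ := hσ
    rw [max_eq_left (by linarith), ← Real.exp_add]
    congr 2; ring
  have e3 : Real.exp (-N) * (Real.exp (N * (1 - H)) / N) = N⁻¹ * Real.exp (-(N * H)) := by
    rw [← mul_div_assoc, ← Real.exp_add, div_eq_inv_mul]; congr 2; ring
  have e4 : Real.exp (-N + T * (1 - H)) * (-Real.exp ((N - T) * (1 - H)) / (N - T)) =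
      (T - N)⁻¹ * Real.exp (-(N * H)) := by
    rw [← neg_sub T N, neg_div_neg_eq, ← mul_div_assoc, ← Real.exp_add, div_eq_inv_mul]
    congr 2; ring
  rw [e1, e2, e3, e4, ← ENNReal.ofReal_add (by positivity) (by positivity),
    ← ENNReal.ofReal_mul (by positivity), add_mul]

theorem cone_T (hK : IsCompact K) (hKc : Convex ℝ K) {ρ : ℝ} (hρ : 0 < ρ)
    (hball : closedBall 0 ρ ⊆ K) {N T : ℝ} (hN : 1 ≤ N) (hT : N + 1 ≤ T) :
    ENNReal.ofReal ((2 * Real.pi / (6089 / 2500)) ^ (Module.finrank ℝ E + 1)) ≤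
      ENNReal.ofReal (Real.exp N * (Module.finrank ℝ E).factorial * (N⁻¹ + (T - N)⁻¹) *
        (N ^ Module.finrank ℝ E)⁻¹) *
      (volume K * ∫⁻ y, ENNReal.ofReal (Real.exp (-supp K y))) := by
  set n := Module.finrank ℝ E with hn
  have h0 : (0 : E) ∈ K := hball (mem_closedBall_self hρ.le)
  have hne : K.Nonempty := ⟨0, h0⟩
  have hc := supp_continuous hK hne
  have hT0 : 0 ≤ T := by linarith
  set f : ℝ × E → WithLp 2 (ℝ × E) := fun z => WithLp.toLp 2 (z.1 - N, z.1 • z.2) with hf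
  have hfc : Continuous f := (WithLp.prod_continuous_toLp 2 ℝ E).comp (by fun_prop)
  set C : Set (WithLp 2 (ℝ × E)) := f '' (Icc 0 T ×ˢ K) with hC
  have hCc : IsCompact C := (isCompact_Icc.prod hK).image hfc
  have hCv : Convex ℝ C := by
    rintro _ ⟨⟨τ, x⟩, ⟨hτ, hx⟩, rfl⟩ _ ⟨⟨τ', x'⟩, ⟨hτ', hx'⟩, rfl⟩ a b ha hb hab
    simp only [mem_Icc] at hτ hτ' hx hx'
    have p1 := mul_nonneg ha hτ.1
    have p2 := mul_nonneg hb hτ'.1
    have hI : a * τ + b * τ' ∈ Icc 0 T := ⟨by linarith, by nlinarith [hτ.2, hτ'.2]⟩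
    have e : a • f (τ, x) + b • f (τ', x') =
        WithLp.toLp 2 (a * τ + b * τ' - N, (a * τ) • x + (b * τ') • x') := by
      simp only [hf, ← WithLp.toLp_smul, ← WithLp.toLp_add, Prod.smul_mk, Prod.mk_add_mk,
        smul_eq_mul, smul_smul]
      congr 2
      linear_combination (-N) * hab
    rw [e]
    rcases (add_nonneg p1 p2).eq_or_lt with hz | hz
    · refine ⟨(a * τ + b * τ', x), ⟨hI, hx⟩, ?_⟩
      have q1 : a * τ = 0 := by linarith
      have q2 : b * τ' = 0 := by linarith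
      simp only [hf, q1, q2, zero_smul, add_zero]
    · refine ⟨(a * τ + b * τ', (a * τ / (a * τ + b * τ')) • x + (b * τ' / (a * τ + b * τ')) • x'),
        ⟨hI, hKc hx hx' (by positivity) (by positivity) (by field_simp)⟩, ?_⟩
      simp only [hf, smul_add, smul_smul, mul_div_cancel₀ _ hz.ne']
  have hCb : closedBall 0 (min (1 / 2) (ρ / 2)) ⊆ C := by
    intro Y hY
    rw [mem_closedBall_zero_iff, le_min_iff] at hY
    have a1 := abs_le.1 ((WithLp.norm_fst_le ℝ Y).trans hY.1)
    have a2 := (WithLp.norm_snd_le ℝ Y).trans hY.2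
    have a3 : 0 < Y.fst + N := by linarith [a1.1]
    refine ⟨(Y.fst + N, (Y.fst + N)⁻¹ • Y.snd), ⟨⟨a3.le, by linarith [a1.2]⟩, hball ?_⟩, ?_⟩
    · rw [mem_closedBall_zero_iff, norm_smul, Real.norm_eq_abs, abs_of_pos (inv_pos.2 a3),
        inv_mul_le_iff₀ a3]
      nlinarith [a1.1]
    · simp only [hf, smul_smul, mul_inv_cancel₀ a3.ne', one_smul, add_sub_cancel_right]
      rfl
  have c1 : Continuous fun Y : WithLp 2 (ℝ × E) => Y.fst := WithLp.continuous_fst 2 ℝ E
  have c2 : Continuous fun Y : WithLp 2 (ℝ × E) => Y.snd := WithLp.continuous_snd 2 ℝ E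
  have hvc : ConvexOn ℝ C fun Y : WithLp 2 (ℝ × E) => Y.fst :=
    ⟨hCv, fun _ _ _ _ _ _ _ _ _ => le_of_eq (by simp)⟩
  have main := fun_general hCc hvc c1 (lt_min (by norm_num) (by positivity)) hCb
    (h := fun W => N * (1 - W.fst) + T * max (W.fst - 1 + supp K W.snd) 0)
    (Continuous.measurable (by fun_prop)) (fun W => by
      rcases le_total (W.fst - 1 + supp K W.snd) 0 with hz | hz
      · refine ⟨f (0, 0), ⟨(0, 0), ⟨⟨le_rfl, hT0⟩, h0⟩, rfl⟩, ?_⟩
        rw [max_eq_right hz]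
        simp [hf, WithLp.prod_inner_apply]
        linarith
      · obtain ⟨x, hx, h1⟩ := supp_attained hK hne W.snd
        refine ⟨f (T, x), ⟨(T, x), ⟨⟨hT0, le_rfl⟩, hx⟩, rfl⟩, ?_⟩
        rw [max_eq_left hz, h1]
        simp [hf, WithLp.prod_inner_apply, inner_smul_left]
        linarith)
  have hrk : Module.finrank ℝ (WithLp 2 (ℝ × E)) = n + 1 := by
    rw [(WithLp.linearEquiv 2 ℝ (ℝ × E)).finrank_eq, Module.finrank_prod, Module.finrank_self,
      add_comm]
  rw [hrk] at main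
  refine main.trans ?_
  have hmp := WithLp.volume_preserving_ofLp ℝ E
  have I1 : ∫⁻ Y in C, ENNReal.ofReal (Real.exp (-Y.fst)) ≤
      ENNReal.ofReal (Real.exp N * n.factorial) * volume K := by
    set S : Set (ℝ × E) := {z | z.1 + N = 0} ∪ {z | 0 < z.1 + N ∧ (z.1 + N)⁻¹ • z.2 ∈ K} with hS
    have m1 : MeasurableSet {z : ℝ × E | z.1 + N = 0} :=
      measurableSet_eq_fun (by fun_prop) measurable_const
    have m2 : MeasurableSet {z : ℝ × E | 0 < z.1 + N ∧ (z.1 + N)⁻¹ • z.2 ∈ K} :=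
      (measurableSet_lt measurable_const (measurable_fst.add_const N)).inter
        (((measurable_fst.add_const N).inv.smul measurable_snd) hK.measurableSet)
    have hSm : MeasurableSet S := m1.union m2
    set g : ℝ × E → ℝ≥0∞ := S.indicator fun z => ENNReal.ofReal (Real.exp (-z.1)) with hg
    have hgm : Measurable g := Measurable.indicator (by fun_prop) hSm
    have s1 : ∫⁻ Y in C, ENNReal.ofReal (Real.exp (-Y.fst)) ≤ ∫⁻ z, g z := by
      rw [← hmp.lintegral_comp hgm, ← lintegral_indicator hCc.measurableSet]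
      refine lintegral_mono fun Y => ?_
      by_cases hY : Y ∈ C
      · rw [indicator_of_mem hY, hg, indicator_of_mem]
        · rfl
        · obtain ⟨⟨τ, x⟩, ⟨hτ, hx⟩, rfl⟩ := hY
          rcases hτ.1.eq_or_lt with hz | hz
          · left
            simp only at hz
            simp [hf, ← hz]
          · right
            simp only at hz hx
            simpa [hf, smul_smul, inv_mul_cancel₀ hz.ne', hz] using hx
      · rw [indicator_of_notMem hY]; exact zero_le
    refine s1.trans (le_of_eq ?_)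
    rw [Measure.volume_eq_prod, lintegral_prod _ hgm.aemeasurable,
      ← lintegral_add_right_eq_self _ (-N), ENNReal.ofReal_mul (Real.exp_pos _).le,
      ← gamma_int, mul_assoc, ← lintegral_mul_const _ (by fun_prop),
      ← lintegral_const_mul' _ _ ENNReal.ofReal_ne_top, ← lintegral_indicator measurableSet_Ioi]
    refine lintegral_congr_ae ?_
    filter_upwards [compl_mem_ae_iff.2 (measure_singleton (0 : ℝ))] with t ht0
    have ht0 : t ≠ 0 := ht0
    by_cases ht : 0 < t
    · rw [indicator_of_mem (show t ∈ Ioi (0 : ℝ) from ht)]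
      have e1 : (fun x : E => g (t + -N, x)) =
          ((t⁻¹ • ·) ⁻¹' K).indicator fun _ => ENNReal.ofReal (Real.exp (-(t + -N))) := by
        funext x
        rw [hg]
        by_cases hx : t⁻¹ • x ∈ K
        · rw [indicator_of_mem (show (t + -N, x) ∈ S from Or.inr (by simpa using ⟨ht, hx⟩)),
            indicator_of_mem (show x ∈ (t⁻¹ • ·) ⁻¹' K from hx)]
        · rw [indicator_of_notMem (show (t + -N, x) ∉ S by simp [hS, ht0, hx]),
            indicator_of_notMem (show x ∉ (t⁻¹ • ·) ⁻¹' K from hx)]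
      rw [e1, lintegral_indicator_const ((measurable_const_smul _) hK.measurableSet),
        Measure.addHaar_preimage_smul _ (inv_ne_zero ht.ne'), ← mul_assoc, ← mul_assoc,
        ← ENNReal.ofReal_mul (Real.exp_pos _).le, ← ENNReal.ofReal_mul (Real.exp_pos _).le,
        inv_pow, inv_inv, abs_of_pos (pow_pos ht _), ← mul_assoc, ← Real.exp_add]
      congr 4; ring
    · rw [indicator_of_notMem (show t ∉ Ioi (0 : ℝ) from ht)]
      have e1 : (fun x : E => g (t + -N, x)) = fun _ => 0 := by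
        funext x
        rw [hg, indicator_of_notMem (show (t + -N, x) ∉ S by simp [hS, ht0, ht])]
      rw [e1, lintegral_zero]
  have I2 : ∫⁻ W : WithLp 2 (ℝ × E), ENNReal.ofReal (Real.exp
      (-(N * (1 - W.fst) + T * max (W.fst - 1 + supp K W.snd) 0))) =
      ENNReal.ofReal ((N⁻¹ + (T - N)⁻¹) * (N ^ n)⁻¹) *
        ∫⁻ y, ENNReal.ofReal (Real.exp (-supp K y)) := by
    have hgm : Measurable fun z : ℝ × E => ENNReal.ofReal (Real.exp
        (-(N * (1 - z.1) + T * max (z.1 - 1 + supp K z.2) 0))) :=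
      (Continuous.measurable (by fun_prop)).ennreal_ofReal
    have hN0 : 0 < N := by linarith
    have hd : 0 < T - N := by linarith
    refine (hmp.lintegral_comp hgm).trans ?_
    rw [Measure.volume_eq_prod, lintegral_prod_symm _ hgm.aemeasurable]
    simp_rw [two_exp hN0 (by linarith : N < T), ← supp_smul hK hne hN0.le]
    have h := Measure.map_addHaar_smul (volume : Measure E) hN0.ne'
    rw [lintegral_const_mul' _ _ ENNReal.ofReal_ne_top,
      ← lintegral_map (f := fun y => ENNReal.ofReal (Real.exp (-supp K y))) (by fun_prop)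
        (measurable_const_smul _), h, lintegral_smul_measure,
      abs_of_pos (by positivity), smul_eq_mul, ← mul_assoc, ← ENNReal.ofReal_mul (by positivity)]
  rw [I2]
  refine (mul_le_mul' I1 le_rfl).trans (le_of_eq ?_)
  rw [mul_assoc (Real.exp N * n.factorial), ENNReal.ofReal_mul (p := Real.exp N * n.factorial)
    (by positivity)]
  ring

end Pool.Agent.MP_5f4cdd_gt.NW
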