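import Mathlib

set_option autoImplicit false
open Matrix

namespace Pool.Agent.MP_5f4cdd_gt.NW

variable {ι : Type*} [Fintype ι] [DecidableEq ι]

theorem norm_det_le_one {T : Matrix ι ι ℂ}
    (h : ∀ (μ : ℂ) (x : ι → ℂ), x ≠ 0 → T *ᵥ x = μ • x → ‖μ‖ ≤ 1) : ‖T.det‖ ≤ 1 := by
  rw [det_eq_prod_roots_charpoly]
  have h1 : ∀ μ ∈ T.charpoly.roots, ‖μ‖ ≤ 1 := by
    intro μ hμ
    have h2 : T.charpoly.eval μ = 0 := (Polynomial.isRoot_of_mem_roots hμ)
    rw [eval_charpoly, ← exists_mulVec_eq_zero_iff] at h2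
    obtain ⟨x, hx, h3⟩ := h2
    refine h μ x hx ?_
    rw [sub_mulVec, sub_eq_zero] at h3
    rw [← h3]
    ext i
    simp [scalar_apply, mulVec_diagonal]
  generalize T.charpoly.roots = s at h1
  induction s using Multiset.induction_on with
  | empty => simp
  | cons a s ih =>
    rw [Multiset.prod_cons, norm_mul]
    exact mul_le_one₀ (h1 a (Multiset.mem_cons_self _ _)) (norm_nonneg _)
      (ih fun μ hμ => h1 μ (Multiset.mem_cons_of_mem hμ))

omit [DecidableEq ι] in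
theorem re_form (M : Matrix ι ι ℝ) (x y : ι → ℂ) :
    (star x ⬝ᵥ (M.map Complex.ofReal *ᵥ y)).re =
      (fun i => (x i).re) ⬝ᵥ (M *ᵥ fun i => (y i).re) +
        (fun i => (x i).im) ⬝ᵥ (M *ᵥ fun i => (y i).im) := by
  simp only [dotProduct, mulVec, map_apply, Complex.re_sum, Finset.mul_sum, Pi.star_apply,
    ← Finset.sum_add_distrib]
  refine Finset.sum_congr rfl fun i _ => Finset.sum_congr rfl fun j _ => ?_
  simp

omit [DecidableEq ι] in
theorem im_form (M : Matrix ι ι ℝ) (x y : ι → ℂ) :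
    (star x ⬝ᵥ (M.map Complex.ofReal *ᵥ y)).im =
      (fun i => (x i).re) ⬝ᵥ (M *ᵥ fun i => (y i).im) -
        (fun i => (x i).im) ⬝ᵥ (M *ᵥ fun i => (y i).re) := by
  simp only [dotProduct, mulVec, map_apply, Complex.im_sum, Finset.mul_sum, Pi.star_apply,
    ← Finset.sum_sub_distrib]
  refine Finset.sum_congr rfl fun i _ => Finset.sum_congr rfl fun j _ => ?_
  simp
  ring

theorem det_map_ofReal (M : Matrix ι ι ℝ) : (M.map Complex.ofReal).det = (M.det : ℂ) := by
  have := (Complex.ofRealHom).map_det M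
  simp only [Complex.ofRealHom_eq_coe] at this
  rw [this]; rfl

omit [DecidableEq ι] in
theorem sym_form {M : Matrix ι ι ℝ} (hM : M.IsHermitian) (x y : ι → ℝ) :
    x ⬝ᵥ (M *ᵥ y) = y ⬝ᵥ (M *ᵥ x) := by
  have h : Mᵀ = M := by simpa using hM.eq
  rw [dotProduct_mulVec, ← mulVec_transpose, h, dotProduct_comm]

theorem det_cs {A C B₁ B₂ : Matrix ι ι ℝ} (hA : A.PosDef) (hC : C.PosDef)
    (h : ∀ x₁ x₂ y₁ y₂ : ι → ℝ,
      2 * (x₁ ⬝ᵥ (B₁ *ᵥ y₁) + x₂ ⬝ᵥ (B₁ *ᵥ y₂) - x₁ ⬝ᵥ (B₂ *ᵥ y₂) + x₂ ⬝ᵥ (B₂ *ᵥ y₁)) ≤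
        x₁ ⬝ᵥ (A *ᵥ x₁) + x₂ ⬝ᵥ (A *ᵥ x₂) + (y₁ ⬝ᵥ (C *ᵥ y₁) + y₂ ⬝ᵥ (C *ᵥ y₂))) :
    ‖(B₁.map Complex.ofReal + Complex.I • B₂.map Complex.ofReal).det‖ ^ 2 ≤ A.det * C.det := by
  set B := B₁.map Complex.ofReal + Complex.I • B₂.map Complex.ofReal with hB
  set A' := A.map Complex.ofReal with hA'
  set C' := C.map Complex.ofReal with hC'
  have dA : A'.det = (A.det : ℂ) := det_map_ofReal A
  have dC : C'.det = (C.det : ℂ) := det_map_ofReal C
  have uA : IsUnit A'.det := by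
    rw [dA, isUnit_iff_ne_zero, Complex.ofReal_ne_zero]; exact hA.det_pos.ne'
  have uC : IsUnit C'.det := by
    rw [dC, isUnit_iff_ne_zero, Complex.ofReal_ne_zero]; exact hC.det_pos.ne'
  have hre : ∀ x y : ι → ℂ, 2 * (star x ⬝ᵥ (B *ᵥ y)).re ≤
      (star x ⬝ᵥ (A' *ᵥ x)).re + (star y ⬝ᵥ (C' *ᵥ y)).re := by
    intro x y
    rw [hB, add_mulVec, smul_mulVec, dotProduct_add, dotProduct_smul, Complex.add_re, smul_eq_mul,
      Complex.I_mul_re, re_form, im_form, re_form, re_form]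
    have := h (fun i => (x i).re) (fun i => (x i).im) (fun i => (y i).re) (fun i => (y i).im)
    linarith
  have key : ‖(A'⁻¹ * B * C'⁻¹ * Bᴴ).det‖ ≤ 1 := by
    refine norm_det_le_one fun μ x hx hT => ?_
    set y := C'⁻¹ *ᵥ (Bᴴ *ᵥ x) with hy
    have e1 : C' *ᵥ y = Bᴴ *ᵥ x := by
      rw [hy, mulVec_mulVec, mul_nonsing_inv _ uC, one_mulVec]
    have e2 : B *ᵥ y = μ • (A' *ᵥ x) := by
      rw [← mulVec_smul, ← hT, hy, mulVec_mulVec, mulVec_mulVec, mulVec_mulVec]
      congr 1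
      simp only [← Matrix.mul_assoc]
      rw [mul_nonsing_inv _ uA, Matrix.one_mul]
    have e3 : star y ⬝ᵥ (C' *ᵥ y) = star (star x ⬝ᵥ (B *ᵥ y)) := by
      rw [e1, star_dotProduct, star_mulVec, conjTranspose_conjTranspose, ← dotProduct_mulVec]
    have a0 : (star x ⬝ᵥ (A' *ᵥ x)).im = 0 := by
      rw [im_form, sym_form hA.1, sub_self]
    have c0 : (star y ⬝ᵥ (C' *ᵥ y)).im = 0 := by
      rw [im_form, sym_form hC.1, sub_self]
    have c1 : 0 ≤ (star y ⬝ᵥ (C' *ᵥ y)).re := by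
      rw [re_form]
      have b1 := hC.posSemidef.dotProduct_mulVec_nonneg (fun i => (y i).re)
      have b2 := hC.posSemidef.dotProduct_mulVec_nonneg (fun i => (y i).im)
      simp only [star_trivial] at b1 b2
      linarith
    have a1 : 0 < (star x ⬝ᵥ (A' *ᵥ x)).re := by
      rw [re_form]
      have b1 := hA.posSemidef.dotProduct_mulVec_nonneg (fun i => (x i).re)
      have b2 := hA.posSemidef.dotProduct_mulVec_nonneg (fun i => (x i).im)
      simp only [star_trivial] at b1 b2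
      by_cases h0 : (fun i => (x i).re) = 0
      · have h1 : (fun i => (x i).im) ≠ 0 := by
          intro h1
          apply hx
          ext i
          exact Complex.ext (congrFun h0 i) (congrFun h1 i)
        have b3 := hA.dotProduct_mulVec_pos h1
        simp only [star_trivial] at b3
        linarith
      · have b3 := hA.dotProduct_mulVec_pos h0
        simp only [star_trivial] at b3
        linarith
    have e4 : star x ⬝ᵥ (B *ᵥ y) = μ * (star x ⬝ᵥ (A' *ᵥ x)) := by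
      rw [e2, dotProduct_smul, smul_eq_mul]
    have h5 := hre x y
    rw [e3, e4] at c0 c1 h5
    generalize star x ⬝ᵥ (A' *ᵥ x) = α at *
    simp only [Complex.star_def, Complex.conj_re, Complex.conj_im, Complex.mul_re, Complex.mul_im,
      a0, mul_zero, sub_zero, zero_add, neg_eq_zero] at c0 c1 h5
    have m0 : μ.im = 0 := by
      rcases mul_eq_zero.1 c0 with h | h
      · exact h
      · exact absurd h a1.ne'
    have m1 : 0 ≤ μ.re := by
      by_contra hc
      push Not at hc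
      nlinarith
    have m2 : μ.re ≤ 1 := by
      by_contra hc
      push Not at hc
      nlinarith
    rw [← Complex.abs_re_eq_norm.2 m0, abs_of_nonneg m1]
    exact m2
  rw [det_mul, det_mul, det_mul, det_nonsing_inv, det_nonsing_inv, det_conjTranspose, dA, dC,
    norm_mul, norm_mul, norm_mul, norm_star, Ring.inverse_eq_inv', norm_inv, norm_inv,
    Complex.norm_real, Complex.norm_real, Real.norm_eq_abs, Real.norm_eq_abs,
    abs_of_pos hA.det_pos, abs_of_pos hC.det_pos] at key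
  have p1 := hA.det_pos
  have p2 := hC.det_pos
  have e : A.det⁻¹ * ‖B.det‖ * C.det⁻¹ * ‖B.det‖ = ‖B.det‖ ^ 2 / (A.det * C.det) := by
    field_simp
  rwa [e, div_le_one (by positivity)] at key

end Pool.Agent.MP_5f4cdd_gt.NW
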