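import Pool.Agent.MP_5f4cdd_gt.NW.Cone
import Pool.Agent.MP_5f4cdd_gt.T4Final

set_option autoImplicit false
set_option linter.unusedSectionVars false
open Set Filter Topology MeasureTheory Metric
open scoped RealInnerProductSpace NNReal ENNReal Pointwise

namespace Pool.Agent.MP_5f4cdd_gt.NW

open T4

section

variable {E : Type*} [NormedAddCommGroup E] [InnerProductSpace ℝ E] [FiniteDimensional ℝ E]
  [MeasurableSpace E] [BorelSpace E] {K : Set E}

theorem const_gen : (949 / 1000 : ℝ) * Real.exp 1 ≤ 2 * Real.pi / (6089 / 2500) := by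
  have h1 := Real.exp_one_lt_d9
  have h2 := Real.pi_gt_d6
  rw [le_div_iff₀ (by norm_num)]
  linarith

theorem const_sym : (189 / 50 : ℝ) ≤ 2 * Real.pi / (8311 / 5000) := by
  have h2 := Real.pi_gt_d6
  rw [le_div_iff₀ (by norm_num)]
  linarith

theorem general_ball (hK : IsCompact K) (hKc : Convex ℝ K) {ρ : ℝ} (hρ : 0 < ρ)
    (hball : closedBall 0 ρ ⊆ K) :
    ENNReal.ofReal ((949 / 1000 : ℝ) ^ (Module.finrank ℝ E + 1) *
      ((Module.finrank ℝ E + 1 : ℝ) ^ (Module.finrank ℝ E + 1) / (Module.finrank ℝ E).factorial)) ≤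
      volume K * ∫⁻ y, ENNReal.ofReal (Real.exp (-supp K y)) := by
  set n := Module.finrank ℝ E with hn
  set I := volume K * ∫⁻ y, ENNReal.ofReal (Real.exp (-supp K y)) with hI
  set N : ℝ := n + 1 with hN
  have hN1 : 1 ≤ N := by rw [hN]; linarith [Nat.cast_nonneg (α := ℝ) n]
  have hN0 : 0 < N := by linarith
  have hF : (0 : ℝ) < n.factorial := by exact_mod_cast n.factorial_pos
  have hlim : Tendsto (fun T : ℝ => ENNReal.ofReal (Real.exp N * n.factorial *
      (N⁻¹ + (T - N)⁻¹) * (N ^ n)⁻¹) * I) atTop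
      (𝓝 (ENNReal.ofReal (Real.exp N * n.factorial * (N⁻¹ + 0) * (N ^ n)⁻¹) * I)) := by
    refine ENNReal.Tendsto.mul_const ((ENNReal.continuous_ofReal.tendsto _).comp ?_)
      (Or.inl (by rw [ne_eq, ENNReal.ofReal_eq_zero, not_le]; positivity))
    exact ((tendsto_const_nhds.add (tendsto_inv_atTop_zero.comp
      (tendsto_atTop_add_const_right _ (-N) tendsto_id))).const_mul _).mul_const _
  have h1 := ge_of_tendsto hlim ((eventually_ge_atTop (N + 1)).mono fun T hT =>
    cone_T hK hKc hρ hball hN1 hT)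
  have h2 : ENNReal.ofReal (((949 / 1000 : ℝ) * Real.exp 1) ^ (n + 1)) ≤
      ENNReal.ofReal (Real.exp N * n.factorial * (N⁻¹ + 0) * (N ^ n)⁻¹) * I :=
    le_trans (ENNReal.ofReal_le_ofReal (pow_le_pow_left₀ (by positivity) const_gen _)) h1
  have e : Real.exp 1 ^ (n + 1) = Real.exp N := by
    rw [← Real.exp_nat_mul, mul_one, hN]; push_cast; rfl
  have hc : 0 < Real.exp N * n.factorial * (N⁻¹ + 0) * (N ^ n)⁻¹ := by positivity
  have e2 : (949 / 1000 : ℝ) ^ (n + 1) * (N ^ (n + 1) / n.factorial) =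
      ((949 / 1000 : ℝ) * Real.exp 1) ^ (n + 1) /
        (Real.exp N * n.factorial * (N⁻¹ + 0) * (N ^ n)⁻¹) := by
    rw [mul_pow, e, add_zero, pow_succ N]
    field_simp
  rw [e2, ENNReal.ofReal_div_of_pos hc]
  exact ENNReal.div_le_of_le_mul' h2

theorem general_bound (hK : IsCompact K) (hKc : Convex ℝ K) (hi : (interior K).Nonempty) :
    ENNReal.ofReal ((949 / 1000 : ℝ) ^ (Module.finrank ℝ E + 1) *
      ((Module.finrank ℝ E + 1 : ℝ) ^ (Module.finrank ℝ E + 1) / (Module.finrank ℝ E).factorial)) ≤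
      volume K * ∫⁻ y, ENNReal.ofReal (Real.exp (-supp K y)) := by
  by_cases h0 : (0 : E) ∈ interior K
  · obtain ⟨ρ, hρ, hball⟩ := Metric.nhds_basis_closedBall.mem_iff.1 (mem_interior_iff_mem_nhds.1 h0)
    exact general_ball hK hKc hρ hball
  · rw [lintegral_eq_top_of_notMem hK hKc hi h0,
      ENNReal.mul_top (Measure.measure_pos_of_nonempty_interior _ hi).ne']
    exact le_top

theorem sym_bound (hK : IsCompact K) (hKc : Convex ℝ K) (hi : (interior K).Nonempty)
    (hs : ∀ x ∈ K, -x ∈ K) :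
    ENNReal.ofReal ((189 / 50 : ℝ) ^ Module.finrank ℝ E) ≤
      volume K * ∫⁻ y, ENNReal.ofReal (Real.exp (-supp K y)) := by
  have hne : K.Nonempty := hi.mono interior_subset
  by_cases h0 : (0 : E) ∈ interior K
  · obtain ⟨ρ, hρ, hball⟩ := Metric.nhds_basis_closedBall.mem_iff.1 (mem_interior_iff_mem_nhds.1 h0)
    have := fun_sym (v := fun _ => 0) hK (convexOn_const 0 hKc) continuous_const
      (fun y hy => ⟨hs y hy, rfl⟩) hρ hball (supp_continuous hK hne).measurable (fun w => by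
        obtain ⟨x, hx, h1⟩ := supp_attained hK hne w
        exact ⟨x, hx, by rw [h1, sub_zero]⟩)
    simp only [neg_zero, Real.exp_zero, ENNReal.ofReal_one, lintegral_one,
      Measure.restrict_apply_univ] at this
    exact le_trans (ENNReal.ofReal_le_ofReal (pow_le_pow_left₀ (by norm_num) const_sym _)) this
  · rw [lintegral_eq_top_of_notMem hK hKc hi h0,
      ENNReal.mul_top (Measure.measure_pos_of_nonempty_interior _ hi).ne']
    exact le_top

end

theorem transfer (n : ℕ) (K : Set (Fin n → ℝ)) (hc : Convex ℝ K) (hK : IsCompact K)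
    (hi : (interior K).Nonempty) : ∃ L : Set (EuclideanSpace ℝ (Fin n)), IsCompact L ∧
      Convex ℝ L ∧ (interior L).Nonempty ∧ ((∀ x ∈ K, -x ∈ K) → ∀ x ∈ L, -x ∈ L) ∧
      volume L * ∫⁻ y, ENNReal.ofReal (Real.exp (-supp L y)) =
      volume K * ∫⁻ y : Fin n → ℝ, ENNReal.ofReal
        (Real.exp (-(sSup ((fun x : Fin n → ℝ => ∑ i, x i * y i) '' K)))) := by
  set e := EuclideanSpace.equiv (Fin n) ℝ with he
  have hmp : MeasurePreserving e := PiLp.volume_preserving_ofLp (Fin n)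
  have hemb : MeasurableEmbedding e := e.toHomeomorph.measurableEmbedding
  refine ⟨e ⁻¹' K, e.toHomeomorph.isCompact_preimage.2 hK,
    hc.linear_preimage (e : EuclideanSpace ℝ (Fin n) →ₗ[ℝ] _), ?_, fun hs x hx => ?_, ?_⟩
  · have := e.toHomeomorph.preimage_interior K
    simp only [ContinuousLinearEquiv.coe_toHomeomorph] at this
    rw [← this]
    exact hi.preimage e.surjective
  · rw [mem_preimage, map_neg]
    exact hs _ hx
  rw [hmp.measure_preimage hK.measurableSet.nullMeasurableSet, ← hmp.lintegral_comp_emb hemb]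
  congr 1
  refine lintegral_congr fun y => ?_
  congr 3
  unfold supp lconj
  congr 1
  ext t
  constructor
  · rintro ⟨x, hx, rfl⟩
    exact ⟨e x, hx, by simp [he, PiLp.inner_apply, mul_comm]⟩
  · rintro ⟨x, hx, rfl⟩
    exact ⟨e.symm x, by simpa using hx, by simp [he, PiLp.inner_apply, mul_comm]⟩

theorem general_pi (n : ℕ) (K : Set (Fin n → ℝ)) (hc : Convex ℝ K) (hK : IsCompact K)
    (hi : (interior K).Nonempty) :
    ENNReal.ofReal ((949 / 1000 : ℝ) ^ (n + 1) * ((n + 1 : ℝ) ^ (n + 1) / n.factorial)) ≤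
      volume K * ∫⁻ y : Fin n → ℝ, ENNReal.ofReal
        (Real.exp (-(sSup ((fun x : Fin n → ℝ => ∑ i, x i * y i) '' K)))) := by
  obtain ⟨L, h1, h2, h3, -, h5⟩ := transfer n K hc hK hi
  have := general_bound h1 h2 h3
  rwa [finrank_euclideanSpace_fin, h5] at this

theorem sym_pi (n : ℕ) (K : Set (Fin n → ℝ)) (hc : Convex ℝ K) (hK : IsCompact K)
    (hi : (interior K).Nonempty) (hs : ∀ x ∈ K, -x ∈ K) :
    ENNReal.ofReal ((189 / 50 : ℝ) ^ n) ≤
      volume K * ∫⁻ y : Fin n → ℝ, ENNReal.ofReal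
        (Real.exp (-(sSup ((fun x : Fin n → ℝ => ∑ i, x i * y i) '' K)))) := by
  obtain ⟨L, h1, h2, h3, h4, h5⟩ := transfer n K hc hK hi
  have := sym_bound h1 h2 h3 (h4 hs)
  rwa [finrank_euclideanSpace_fin, h5] at this

end Pool.Agent.MP_5f4cdd_gt.NW
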