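import Pool.Agent.MP_5f4cdd_gt.NW.Net
import Pool.Agent.MP_5f4cdd_gt.T4Kup

set_option autoImplicit false
set_option linter.unusedSectionVars false
open Set Filter Topology MeasureTheory Metric
open scoped RealInnerProductSpace NNReal ENNReal Pointwise

namespace Pool.Agent.MP_5f4cdd_gt.NW

open T4

variable {E : Type*} [NormedAddCommGroup E] [InnerProductSpace ℝ E] [FiniteDimensional ℝ E]
  [MeasurableSpace E] [BorelSpace E] {J : Type*} [MeasurableSpace J]

/-- the dual function -/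
noncomputable def psi (v : E → ℝ) (y : E) : ℝ := v y + ‖y‖ ^ 2 / 2

/-- the potential of the proximal map -/
noncomputable def pot (P : E → E) (v : E → ℝ) (w : E) : ℝ := ⟪P w, w⟫ - v (P w) - ‖P w‖ ^ 2 / 2

/-- the Mahler type product -/
noncomputable def prodM (K : Set E) (P : E → E) (v : E → ℝ) : ℝ≥0∞ :=
  (∫⁻ w, ENNReal.ofReal (Real.exp (-pot P v w))) * ∫⁻ y in K, ENNReal.ofReal (Real.exp (-psi v y))

variable {K : Set E} {v : E → ℝ} {P : E → E}

theorem le_pot (hP : IsProx K v P) (w : E) {y : E} (hy : y ∈ K) : ⟪y, w⟫ - psi v y ≤ pot P v w := by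
  have := hP.max_le w hy
  unfold psi pot
  linarith

theorem pot_eq (w : E) : pot P v w = ⟪P w, w⟫ - psi v (P w) := by unfold psi pot; ring

theorem continuous_psi (hv : Continuous v) : Continuous (psi v) := by unfold psi; fun_prop

theorem continuous_pot (hP : IsProx K v P) (hv : Continuous v) : Continuous (pot P v) := by
  have := hP.continuous
  unfold pot; fun_prop

theorem convexOn_psi (hv : ConvexOn ℝ K v) : ConvexOn ℝ K (psi v) := by
  have h1 : ConvexOn ℝ K fun y : E => ‖y‖ ^ 2 :=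
    (convexOn_univ_norm.subset (subset_univ _) hv.1).pow (fun _ _ => norm_nonneg _) 2
  have h2 := hv.add (h1.smul (by norm_num : (0 : ℝ) ≤ 1 / 2))
  refine h2.congr fun y _ => ?_
  simp only [psi, Pi.add_apply, smul_eq_mul]
  ring

theorem network_fun {μ : Measure J} [IsProbabilityMeasure μ] (hP : IsProx K v P)
    (hK : IsCompact K) (hv : Continuous v) {ρ : ℝ} (hρ : 0 < ρ) (hball : closedBall 0 ρ ⊆ K)
    {p q u₁ u₂ c₁ c₂ : J → ℝ} {B : ℝ}
    (hp : MB μ B p) (hq : MB μ B q) (hu₁ : MB μ B u₁) (hu₂ : MB μ B u₂) (hc₁ : MB μ B c₁)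
    (hc₂ : MB μ B c₂) (hpq : ∀ᵐ j ∂μ, p j ≠ 0 ∨ q j ≠ 0) {a b κ : ℝ} (ha : 0 < a) (hb : 0 < b)
    (hκ : 0 < κ) (h₁ : ∀ᵐ j ∂μ, 0 ≤ c₁ j * (a * q j + b * p j))
    (h₂ : ∀ᵐ j ∂μ, 0 ≤ c₂ j * (-a * q j + b * p j))
    (h₃ : ∀ᵐ j ∂μ, (u₁ j ^ 2 + u₂ j ^ 2) * (p j ^ 2 + q j ^ 2) ≤
      κ ^ 2 * (c₁ j * (a * q j + b * p j) * (c₂ j * (-a * q j + b * p j))))
    (m₁ : ∀ X, nw μ P p q c₁ X ∈ K) (m₂ : ∀ X, nw μ P p q c₂ X ∈ K)
    (hineq : ∀ X : E × E, pot P v (a • X.1 + (-b) • X.2) + psi v (nw μ P p q c₁ X) +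
      (pot P v (a • X.1 + b • X.2) + psi v (nw μ P p q c₂ X)) ≤
      2 * (⟪X.1, nw μ P p q u₁ X⟫ + ⟪X.2, nw μ P p q u₂ X⟫)) :
    ENNReal.ofReal ((2 * Real.pi / κ) ^ Module.finrank ℝ E) ≤ prodM K P v := by
  obtain ⟨D, hD⟩ := hK.isBounded.exists_norm_le
  have cψ := continuous_psi hv
  have cφ := continuous_pot hP hv
  obtain ⟨M, hM⟩ := hK.exists_bound_of_continuousOn cψ.continuousOn
  have hf₂ : Measurable (K.indicator fun y => Real.exp (-psi v y)) :=
    Measurable.indicator (by fun_prop) hK.measurableSet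
  have hnn : ∀ y, 0 ≤ K.indicator (fun y => Real.exp (-psi v y)) y := fun y =>
    indicator_nonneg (fun _ _ => (Real.exp_pos _).le) y
  have h := network hP hD hp hq hu₁ hu₂ hc₁ hc₂ hpq ha.ne' hκ h₁ h₂ h₃
    (g := fun Y => Real.exp (-pot P v Y.1) * K.indicator (fun y => Real.exp (-psi v y)) Y.2)
    (fun Y => mul_nonneg (Real.exp_pos _).le (hnn _))
    (Measurable.mul (by fun_prop) (hf₂.comp measurable_snd)) (fun X => ?_) ?_
  · refine h.trans (le_of_eq ?_)
    simp_rw [ENNReal.ofReal_mul (Real.exp_pos _).le]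
    rw [Measure.volume_eq_prod, lintegral_prod_mul
      (f := fun w => ENNReal.ofReal (Real.exp (-pot P v w)))
      (g := fun y => ENNReal.ofReal (K.indicator (fun y => Real.exp (-psi v y)) y))
      (Measurable.aemeasurable (by fun_prop)) hf₂.ennreal_ofReal.aemeasurable, prodM,
      ← lintegral_indicator hK.measurableSet]
    congr 1
    refine lintegral_congr fun y => ?_
    by_cases hy : y ∈ K
    · rw [indicator_of_mem hy, indicator_of_mem hy]
    · rw [indicator_of_notMem hy, indicator_of_notMem hy, ENNReal.ofReal_zero]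
  · simp only [chart]
    rw [indicator_of_mem (m₁ X), indicator_of_mem (m₂ X), ← Real.exp_add, ← Real.exp_add,
      ← Real.exp_add, ← Real.exp_nat_mul, Real.exp_le_exp]
    have := hineq X
    push_cast
    linarith
  · have i1 := (integrable_exp_neg_norm (E := E) (c := ρ * a / 2) (by positivity)).mul_prod
      (integrable_exp_neg_norm (E := E) (c := ρ * b / 2) (by positivity))
    rw [← Measure.volume_eq_prod] at i1
    have c1 := (lip_nw hP hD hp hq hu₁).continuous
    have c2 := (lip_nw hP hD hp hq hu₂).continuous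
    refine (i1.const_mul (Real.exp (2 * M))).mono' (Continuous.aestronglyMeasurable (by fun_prop))
      (Eventually.of_forall fun X => ?_)
    rw [Real.norm_eq_abs, abs_of_pos (Real.exp_pos _), ← Real.exp_add, ← Real.exp_add,
      Real.exp_le_exp]
    have k : ∀ w : E, ρ * ‖w‖ - M ≤ pot P v w := by
      intro w
      rcases eq_or_ne w 0 with h0 | h0
      · have h0K : (0 : E) ∈ K := hball (mem_closedBall_self hρ.le)
        have := le_pot hP w h0K
        have := (abs_le.1 (hM _ h0K)).2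
        simp only [h0, inner_zero_left, norm_zero] at *
        linarith
      have hn : 0 < ‖w‖ := norm_pos_iff.2 h0
      have hx : (ρ / ‖w‖) • w ∈ K := hball (by
        rw [mem_closedBall_zero_iff, norm_smul, Real.norm_eq_abs, abs_of_pos (by positivity),
          div_mul_cancel₀ _ hn.ne'])
      have k1 := le_pot hP w hx
      have k2 := (abs_le.1 (hM _ hx)).2
      rw [inner_smul_left, real_inner_self_eq_norm_sq] at k1
      simp only [conj_trivial] at k1
      have e : ρ / ‖w‖ * ‖w‖ ^ 2 = ρ * ‖w‖ := by field_simp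
      linarith
    have k1 := k (a • X.1 + (-b) • X.2)
    have k2 := k (a • X.1 + b • X.2)
    have k3 := (abs_le.1 (hM _ (m₁ X))).1
    have k4 := (abs_le.1 (hM _ (m₂ X))).1
    have k5 := hineq X
    have n1 : 2 * a * ‖X.1‖ ≤ ‖a • X.1 + (-b) • X.2‖ + ‖a • X.1 + b • X.2‖ := by
      refine le_trans (le_of_eq ?_) (norm_add_le _ _)
      rw [show a • X.1 + (-b) • X.2 + (a • X.1 + b • X.2) = (2 * a) • X.1 by module, norm_smul,
        Real.norm_eq_abs, abs_of_pos (by positivity)]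
    have n2 : 2 * b * ‖X.2‖ ≤ ‖a • X.1 + b • X.2‖ + ‖a • X.1 + (-b) • X.2‖ := by
      refine le_trans (le_of_eq ?_) (norm_sub_le _ _)
      rw [show a • X.1 + b • X.2 - (a • X.1 + (-b) • X.2) = (2 * b) • X.2 by module, norm_smul,
        Real.norm_eq_abs, abs_of_pos (by positivity)]
    nlinarith

/-- uniform measure on the unit interval -/
noncomputable def mu0 : Measure ℝ := volume.restrict (Ioc 0 1)

instance mu0_prob : IsProbabilityMeasure mu0 := ⟨by simp [mu0]⟩

theorem ae_mu0 {Q : ℝ → Prop} (h : ∀ x, 0 ≤ x → x ≤ 1 → Q x) : ∀ᵐ x ∂mu0, Q x :=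
  (ae_restrict_mem measurableSet_Ioc).mono fun x hx => h x hx.1.le hx.2

theorem exists_MB {f : ℝ → ℝ} (hf : Continuous f) : ∃ B, ∀ B', B ≤ B' → MB mu0 B' f := by
  obtain ⟨B, hB⟩ := (isCompact_Icc (a := (0 : ℝ)) (b := 1)).exists_bound_of_continuousOn
    hf.continuousOn
  exact ⟨B, fun B' h => ⟨hf.measurable, ae_mu0 fun x h0 h1 => (hB x ⟨h0, h1⟩).trans h⟩⟩

theorem curve_id (hP : IsProx K v P) (hv : Continuous v) {p q p' q' : ℝ → ℝ}
    (hp : ∀ x, HasDerivAt p (p' x) x) (hq : ∀ x, HasDerivAt q (q' x) x) (cp : Continuous p')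
    (cq : Continuous q') (X : E × E) :
    ∫ x, ((p x + (x - 1 / 2) * p' x) * ⟪X.1, P (pt p q x X)⟫ +
      (q x + (x - 1 / 2) * q' x) * ⟪X.2, P (pt p q x X)⟫ - psi v (P (pt p q x X))) ∂mu0 =
      (pot P v (pt p q 0 X) + pot P v (pt p q 1 X)) / 2 := by
  have c1 : Continuous p := continuous_iff_continuousAt.2 fun x => (hp x).continuousAt
  have c2 : Continuous q := continuous_iff_continuousAt.2 fun x => (hq x).continuousAt
  have c3 : Continuous fun x => P (pt p q x X) := hP.continuous.comp (by unfold pt; fun_prop)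
  have c5 : Continuous fun x => (p x + (x - 1 / 2) * p' x) * ⟪X.1, P (pt p q x X)⟫ +
      (q x + (x - 1 / 2) * q' x) * ⟪X.2, P (pt p q x X)⟫ - psi v (P (pt p q x X)) :=
    ((Continuous.mul (by fun_prop) (continuous_const.inner c3)).add
      (Continuous.mul (by fun_prop) (continuous_const.inner c3))).sub ((continuous_psi hv).comp c3)
  rw [mu0, ← intervalIntegral.integral_of_le zero_le_one,
    intervalIntegral.integral_eq_sub_of_hasDerivAt
      (f := fun x => (x - 1 / 2) * pot P v (pt p q x X)) (fun x _ => ?_)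
      (Continuous.intervalIntegrable c5 _ _)]
  · ring
  · have d1 : HasDerivAt (fun x => pt p q x X) (p' x • X.1 + q' x • X.2) x :=
      ((hp x).smul_const _).add ((hq x).smul_const _)
    have d2 := (hP.hasFDerivAt_pot (pt p q x X)).comp_hasDerivAt x d1
    have d3 := ((hasDerivAt_id x).sub_const (1 / 2)).mul d2
    refine d3.congr_deriv ?_
    have e := pot_eq (P := P) (v := v) (pt p q x X)
    change 1 * pot P v (pt p q x X) + (x - 1 / 2) * ⟪P (pt p q x X), p' x • X.1 + q' x • X.2⟫ = _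
    rw [e]
    generalize P (pt p q x X) = y
    simp only [pt, inner_add_right, inner_smul_right]
    rw [real_inner_comm y X.1, real_inner_comm y X.2]
    ring

theorem inner_nw {μ : Measure J} [IsProbabilityMeasure μ] (hP : IsProx K v P) {D B : ℝ}
    (hD : ∀ y ∈ K, ‖y‖ ≤ D) {p q u : J → ℝ} (hp : MB μ B p) (hq : MB μ B q) (hu : MB μ B u)
    (X : E × E) (x : E) : Integrable (fun j => u j * ⟪x, P (pt p q j X)⟫) μ ∧
      ⟪x, nw μ P p q u X⟫ = ∫ j, u j * ⟪x, P (pt p q j X)⟫ ∂μ := by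
  have h := integrable_nw hP hD hp hq hu X
  refine ⟨by simpa only [inner_smul_right] using h.const_inner (𝕜 := ℝ) x, ?_⟩
  rw [nw, ← integral_inner h]
  simp only [inner_smul_right]

theorem jensen_nw {μ : Measure J} [IsProbabilityMeasure μ] (hP : IsProx K v P)
    (hK : IsCompact K) (hvc : ConvexOn ℝ K v) (hv : Continuous v) {B : ℝ} {p q c : J → ℝ}
    (hp : MB μ B p) (hq : MB μ B q) (hc : MB μ B c)
    (h : ∀ j, ∀ y ∈ K, c j • y ∈ K ∧ psi v (c j • y) = psi v y) (X : E × E) :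
    nw μ P p q c X ∈ K ∧ Integrable (fun j => psi v (P (pt p q j X))) μ ∧
      psi v (nw μ P p q c X) ≤ ∫ j, psi v (P (pt p q j X)) ∂μ := by
  obtain ⟨D, hD⟩ := hK.isBounded.exists_norm_le
  have hi := integrable_nw hP hD hp hq hc X
  have cψ := continuous_psi hv
  obtain ⟨M, hM⟩ := hK.exists_bound_of_continuousOn cψ.continuousOn
  have hm : ∀ᵐ j ∂μ, c j • P (pt p q j X) ∈ K :=
    Eventually.of_forall fun j => (h j _ (hP.mem _)).1
  have hi2 : Integrable (fun j => psi v (P (pt p q j X))) μ :=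
    (integrable_const M).mono' (cψ.measurable.comp (hP.continuous.measurable.comp
      (measurable_pt hp.1 hq.1 X))).aestronglyMeasurable
      (Eventually.of_forall fun j => hM _ (hP.mem _))
  have e : (psi v ∘ fun j => c j • P (pt p q j X)) = fun j => psi v (P (pt p q j X)) :=
    funext fun j => (h j _ (hP.mem _)).2
  refine ⟨hvc.1.integral_mem hK.isClosed hm hi, hi2, ?_⟩
  have := (convexOn_psi hvc).map_integral_le cψ.continuousOn hK.isClosed hm hi (by rwa [e])
  refine this.trans (le_of_eq ?_)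
  exact congrArg (fun f => ∫ j, f j ∂μ) e

theorem curve_bound (hP : IsProx K v P) (hK : IsCompact K) (hvc : ConvexOn ℝ K v)
    (hv : Continuous v) {ρ : ℝ} (hρ : 0 < ρ) (hball : closedBall 0 ρ ⊆ K) {p q p' q' : ℝ → ℝ}
    (hp : ∀ x, HasDerivAt p (p' x) x) (hq : ∀ x, HasDerivAt q (q' x) x) (cp : Continuous p')
    (cq : Continuous q') {b κ : ℝ} (hb : 0 < b) (hκ : 0 < κ) (p0 : p 0 = 1) (q0 : q 0 = -b)
    (p1 : p 1 = 1) (q1 : q 1 = b)
    (h : ∀ x, 0 ≤ x → x ≤ 1 → 0 < p x ∧ 0 ≤ q x + b * p x ∧ 0 ≤ -q x + b * p x ∧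
      ((p x + (x - 1 / 2) * p' x) ^ 2 + (q x + (x - 1 / 2) * q' x) ^ 2) * (p x ^ 2 + q x ^ 2) ≤
        κ ^ 2 * ((q x + b * p x) * (-q x + b * p x))) :
    ENNReal.ofReal ((2 * Real.pi / κ) ^ Module.finrank ℝ E) ≤ prodM K P v := by
  have c1 : Continuous p := continuous_iff_continuousAt.2 fun x => (hp x).continuousAt
  have c2 : Continuous q := continuous_iff_continuousAt.2 fun x => (hq x).continuousAt
  obtain ⟨B₁, b₁⟩ := exists_MB c1
  obtain ⟨B₂, b₂⟩ := exists_MB c2
  obtain ⟨B₃, b₃⟩ := exists_MB (f := fun x => p x + (x - 1 / 2) * p' x) (by fun_prop)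
  obtain ⟨B₄, b₄⟩ := exists_MB (f := fun x => q x + (x - 1 / 2) * q' x) (by fun_prop)
  obtain ⟨B₅, b₅⟩ := exists_MB (f := fun _ => (1 : ℝ)) continuous_const
  set B := max (max (max B₁ B₂) (max B₃ B₄)) B₅
  have m₁ := b₁ B (by simp [B])
  have m₂ := b₂ B (by simp [B])
  have m₃ := b₃ B (by simp [B])
  have m₄ := b₄ B (by simp [B])
  have m₅ := b₅ B (by simp [B])
  have hj := jensen_nw hP hK hvc hv m₁ m₂ m₅ (fun _ y hy => by simpa using hy)
  obtain ⟨D, hD⟩ := hK.isBounded.exists_norm_le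
  refine network_fun hP hK hv hρ hball m₁ m₂ m₃ m₄ m₅ m₅
    (ae_mu0 fun x h0 h1 => Or.inl (h x h0 h1).1.ne') one_pos hb hκ
    (ae_mu0 fun x h0 h1 => by simpa using (h x h0 h1).2.1)
    (ae_mu0 fun x h0 h1 => by simpa using (h x h0 h1).2.2.1)
    (ae_mu0 fun x h0 h1 => by simpa using (h x h0 h1).2.2.2)
    (fun X => (hj X).1) (fun X => (hj X).1) fun X => ?_
  have e := curve_id hP hv hp hq cp cq X
  obtain ⟨i1, e1⟩ := inner_nw hP hD m₁ m₂ m₃ X X.1
  obtain ⟨i2, e2⟩ := inner_nw hP hD m₁ m₂ m₄ X X.2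
  have i3 : Integrable (fun x => (p x + (x - 1 / 2) * p' x) * ⟪X.1, P (pt p q x X)⟫ +
      (q x + (x - 1 / 2) * q' x) * ⟪X.2, P (pt p q x X)⟫) mu0 := i1.add i2
  rw [integral_sub i3 (hj X).2.1, integral_add i1 i2, ← e1, ← e2] at e
  have := (hj X).2.2
  simp only [pt, p0, q0, p1, q1] at e this ⊢
  linarith

theorem scale_limit (hK : IsCompact K) (hvc : ConvexOn ℝ K v) (hv : Continuous v)
    (hne : K.Nonempty) {c : ℝ≥0∞}
    (H : ∀ s : ℝ, 0 < s → ∀ P : E → E, IsProx (s • K) (fun y => v (s⁻¹ • y)) P →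
      ConvexOn ℝ (s • K) (fun y => v (s⁻¹ • y)) → c ≤ prodM (s • K) P fun y => v (s⁻¹ • y))
    {h : E → ℝ} (hm : Measurable h) (hh : ∀ w, ∃ y ∈ K, h w ≤ ⟪y, w⟫ - v y) :
    c ≤ (∫⁻ y in K, ENNReal.ofReal (Real.exp (-v y))) * ∫⁻ w, ENNReal.ofReal (Real.exp (-h w)) := by
  obtain ⟨R, hR⟩ := hK.isBounded.exists_norm_le
  set I := (∫⁻ y in K, ENNReal.ofReal (Real.exp (-v y))) *
    ∫⁻ w, ENNReal.ofReal (Real.exp (-h w)) with hI
  have sc : ∀ {t : ℝ}, 0 < t → ∀ {g : E → ℝ≥0∞}, Measurable g →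
      ∫⁻ w, g (t • w) = ENNReal.ofReal (t ^ Module.finrank ℝ E)⁻¹ * ∫⁻ y, g y := by
    intro t ht g hg
    have h := Measure.map_addHaar_smul (volume : Measure E) ht.ne'
    rw [← lintegral_map hg (measurable_const_smul _), h, lintegral_smul_measure,
      abs_of_pos (by positivity), smul_eq_mul]
  have key : ∀ s : ℝ, 0 < s → c ≤ ENNReal.ofReal (Real.exp (s ^ 2 * R ^ 2 / 2)) * I := by
    intro s hs
    have hvs : ConvexOn ℝ (s • K) fun y => v (s⁻¹ • y) := by
      refine ⟨hvc.1.smul s, ?_⟩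
      rintro _ ⟨x, hx, rfl⟩ _ ⟨y, hy, rfl⟩ a b ha hb hab
      have := hvc.2 hx hy ha hb hab
      simp only [smul_add, smul_smul, inv_mul_cancel₀ hs.ne', one_smul,
        show ∀ t : ℝ, s⁻¹ * (t * s) = t from fun t => by field_simp]
      exact this
    obtain ⟨P, hP⟩ := exists_isProx (hK.smul s) hne.smul_set hvs
      (Continuous.continuousOn (by fun_prop))
    refine (H s hs P hP hvs).trans ?_
    have a1 : ∫⁻ w, ENNReal.ofReal (Real.exp (-pot P (fun y => v (s⁻¹ • y)) w)) ≤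
        ENNReal.ofReal (Real.exp (s ^ 2 * R ^ 2 / 2)) *
          (ENNReal.ofReal (s ^ Module.finrank ℝ E)⁻¹ *
            ∫⁻ w, ENNReal.ofReal (Real.exp (-h w))) := by
      rw [← sc hs (g := fun w => ENNReal.ofReal (Real.exp (-h w))) (by fun_prop),
        ← lintegral_const_mul' _ _ ENNReal.ofReal_ne_top]
      refine lintegral_mono fun w => ?_
      rw [← ENNReal.ofReal_mul (Real.exp_pos _).le, ← Real.exp_add]
      refine ENNReal.ofReal_le_ofReal (Real.exp_le_exp.2 ?_)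
      obtain ⟨y, hy, h1⟩ := hh (s • w)
      have h2 := le_pot hP w (smul_mem_smul_set (a := s) hy)
      simp only [psi, smul_smul, inv_mul_cancel₀ hs.ne', one_smul, inner_smul_left, conj_trivial,
        norm_smul, mul_pow, Real.norm_eq_abs, sq_abs] at h2
      rw [inner_smul_right] at h1
      have h3 : s ^ 2 * ‖y‖ ^ 2 ≤ s ^ 2 * R ^ 2 := by gcongr; exact hR y hy
      linarith
    have a2 : ∫⁻ y in s • K, ENNReal.ofReal (Real.exp (-psi (fun y => v (s⁻¹ • y)) y)) ≤
        ENNReal.ofReal (s⁻¹ ^ Module.finrank ℝ E)⁻¹ *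
          ∫⁻ y in K, ENNReal.ofReal (Real.exp (-v y)) := by
      rw [← lintegral_indicator hK.measurableSet, ← sc (inv_pos.2 hs)
        (Measurable.indicator (by fun_prop) hK.measurableSet),
        ← lintegral_indicator (hK.smul s).measurableSet]
      refine lintegral_mono fun y => ?_
      by_cases hy : y ∈ s • K
      · rw [indicator_of_mem hy, indicator_of_mem ((mem_smul_set_iff_inv_smul_mem₀ hs.ne' _ _).1 hy)]
        refine ENNReal.ofReal_le_ofReal (Real.exp_le_exp.2 ?_)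
        have : 0 ≤ ‖y‖ ^ 2 / 2 := by positivity
        simp only [psi]
        linarith
      · rw [indicator_of_notMem hy]; exact zero_le
    refine (mul_le_mul' a1 a2).trans (le_of_eq ?_)
    have e : ENNReal.ofReal (s ^ Module.finrank ℝ E)⁻¹ *
        ENNReal.ofReal (s⁻¹ ^ Module.finrank ℝ E)⁻¹ = 1 := by
      rw [← ENNReal.ofReal_mul (by positivity), inv_pow, inv_inv, inv_mul_cancel₀ (by positivity),
        ENNReal.ofReal_one]
    rw [hI]
    calc _ = ENNReal.ofReal (Real.exp (s ^ 2 * R ^ 2 / 2)) *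
        (ENNReal.ofReal (s ^ Module.finrank ℝ E)⁻¹ * ENNReal.ofReal (s⁻¹ ^ Module.finrank ℝ E)⁻¹) *
        ((∫⁻ y in K, ENNReal.ofReal (Real.exp (-v y))) *
          ∫⁻ w, ENNReal.ofReal (Real.exp (-h w))) := by ring
      _ = _ := by rw [e, mul_one]
  have hlim : Tendsto (fun s : ℝ => ENNReal.ofReal (Real.exp (s ^ 2 * R ^ 2 / 2)) * I) (𝓝[>] 0)
      (𝓝 (ENNReal.ofReal (Real.exp (0 ^ 2 * R ^ 2 / 2)) * I)) := by
    refine ENNReal.Tendsto.mul_const (Tendsto.mono_left ?_ nhdsWithin_le_nhds) (Or.inl (by simp))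
    exact (ENNReal.continuous_ofReal.comp (by fun_prop :
      Continuous fun s : ℝ => Real.exp (s ^ 2 * R ^ 2 / 2))).tendsto 0
  have := ge_of_tendsto hlim (eventually_nhdsWithin_of_forall fun s hs => key s hs)
  simpa using this

end Pool.Agent.MP_5f4cdd_gt.NW
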