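import Pool.Agent.MP_5f4cdd_gt.T4Contour

set_option autoImplicit false
set_option linter.unusedSectionVars false
open Set Filter Topology MeasureTheory Metric
open scoped RealInnerProductSpace NNReal

namespace Pool.Agent.MP_5f4cdd_gt.NW

open T4

variable {E : Type*} [NormedAddCommGroup E] [InnerProductSpace ℝ E] [FiniteDimensional ℝ E]
  [MeasurableSpace E] [BorelSpace E]

/-- orthonormal basis -/
noncomputable def bs (E : Type*) [NormedAddCommGroup E] [InnerProductSpace ℝ E]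
    [FiniteDimensional ℝ E] : Module.Basis (Fin (Module.finrank ℝ E)) ℝ E :=
  (stdOrthonormalBasis ℝ E).toBasis

section Gen

variable {F : Type*} [NormedAddCommGroup F] [NormedSpace ℝ F] [FiniteDimensional ℝ F]
  {κ : Type*} [Fintype κ] [DecidableEq κ] (b : Module.Basis κ ℝ F)

/-- matrix of an operator -/
noncomputable def mt (A : F →L[ℝ] F) : Matrix κ κ ℝ := LinearMap.toMatrix b b (A : F →ₗ[ℝ] F)

/-- complexified determinant with two parameters -/
noncomputable def cd2 (z w : ℂ) (A B : F →L[ℝ] F) : ℂ :=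
  (1 + z • (mt b A).map Complex.ofReal + w • (mt b B).map Complex.ofReal).det

theorem cd2_comm (z w : ℂ) (A B : F →L[ℝ] F) : cd2 b z w A B = cd2 b w z B A := by
  unfold cd2; rw [add_right_comm]

theorem cd2_ofReal (s t : ℝ) (A B : F →L[ℝ] F) :
    cd2 b (s : ℂ) (t : ℂ) A B = ((1 + (s • A + t • B)).det : ℝ) := by
  have h3 : (1 + (s • A + t • B)).det = (LinearMap.toMatrix b b
      ((1 + (s • A + t • B) : F →L[ℝ] F) : F →ₗ[ℝ] F)).det :=
    (LinearMap.det_toMatrix _ _).symm
  have h4 : LinearMap.toMatrix b b ((1 + (s • A + t • B) : F →L[ℝ] F) : F →ₗ[ℝ] F) =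
      1 + s • mt b A + t • mt b B := by
    unfold mt
    rw [← LinearMap.toMatrix_id b, ← map_smul, ← map_smul, ← map_add, ← map_add, add_assoc]; rfl
  rw [h3, h4]
  have := (Complex.ofRealHom).map_det (1 + s • mt b A + t • mt b B)
  simp only [Complex.ofRealHom_eq_coe] at this
  rw [this, cd2]
  congr 1
  ext i j
  simp [Matrix.one_apply]
  split_ifs <;> simp

theorem continuous_mt : Continuous fun A : F →L[ℝ] F => mt b A := by
  refine continuous_matrix fun i j => ?_
  simp only [mt, LinearMap.toMatrix_apply]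
  exact (b.coord i).continuous_of_finiteDimensional.comp
    (by fun_prop : Continuous fun A : F →L[ℝ] F => A (b j))

theorem continuous_cd2 : Continuous fun p : (ℂ × ℂ) × ((F →L[ℝ] F) × (F →L[ℝ] F)) =>
    cd2 b p.1.1 p.1.2 p.2.1 p.2.2 := by
  unfold cd2
  have h : Continuous fun A : F →L[ℝ] F => (mt b A).map Complex.ofReal :=
    (continuous_mt b).matrix_map Complex.continuous_ofReal
  refine Continuous.matrix_det ((continuous_const.add ?_).add ?_)
  · exact (continuous_fst.comp continuous_fst).smul (h.comp (continuous_fst.comp continuous_snd))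
  · exact (continuous_snd.comp continuous_fst).smul (h.comp (continuous_snd.comp continuous_snd))

theorem differentiable_cd2 (z : ℂ) (A B : F →L[ℝ] F) :
    Differentiable ℂ fun w => cd2 b z w A B := by
  unfold cd2
  simp only [Matrix.det_apply', Matrix.add_apply, Matrix.smul_apply, smul_eq_mul]
  fun_prop

theorem cd2_bound (r : ℝ) (C : ℝ≥0) : ∃ M : ℝ, 0 ≤ M ∧ ∀ (z w : ℂ) (R S : F → F) (X : F),
    ‖z‖ ≤ r → ‖w‖ ≤ r → LipschitzWith C R → LipschitzWith C S →
    ‖cd2 b z w (fderiv ℝ R X) (fderiv ℝ S X)‖ ≤ M := by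
  have hc : IsCompact ((closedBall (0 : ℂ) r ×ˢ closedBall (0 : ℂ) r) ×ˢ
      (closedBall (0 : F →L[ℝ] F) C ×ˢ closedBall (0 : F →L[ℝ] F) C)) :=
    ((isCompact_closedBall _ _).prod (isCompact_closedBall _ _)).prod
      ((isCompact_closedBall _ _).prod (isCompact_closedBall _ _))
  obtain ⟨M, hM⟩ := hc.exists_bound_of_continuousOn (continuous_cd2 b).continuousOn
  refine ⟨max M 0, le_max_right _ _, fun z w R S X hz hw hA hB => ?_⟩
  exact (hM ((z, w), (fderiv ℝ R X, fderiv ℝ S X)) ⟨⟨by simpa using hz, by simpa using hw⟩,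
    ⟨by simpa using norm_fderiv_le_of_lipschitz ℝ hA,
      by simpa using norm_fderiv_le_of_lipschitz ℝ hB⟩⟩).trans (le_max_left _ _)

theorem measurable_cd2 [MeasurableSpace F] [BorelSpace F] (z w : ℂ) (R S : F → F) :
    Measurable fun X => cd2 b z w (fderiv ℝ R X) (fderiv ℝ S X) := by
  have h1 : ∀ (T : F → F) (i j : κ), Measurable fun X => ((mt b (fderiv ℝ T X) i j : ℝ) : ℂ) := by
    intro T i j
    have h2 : Continuous fun A : F →L[ℝ] F => mt b A i j := (continuous_mt b).matrix_elem i j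
    exact Complex.measurable_ofReal.comp (h2.measurable.comp (measurable_fderiv ℝ T))
  unfold cd2
  simp only [Matrix.det_apply', Matrix.add_apply, Matrix.smul_apply, smul_eq_mul, Matrix.map_apply]
  refine Finset.measurable_sum _ fun σ _ => Measurable.const_mul ?_ _
  refine Finset.measurable_prod _ fun i _ => ?_
  exact (((h1 R _ _).const_mul z).const_add _).add ((h1 S _ _).const_mul w)

theorem det_pos2 {R S : F → F} {C : ℝ≥0} (hR : LipschitzWith C R)
    (hS : LipschitzWith C S) {s t : ℝ} (hs : |s| * C ≤ 1 / 4) (ht : |t| * C ≤ 1 / 4) (X : F) :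
    0 < (1 + (s • fderiv ℝ R X + t • fderiv ℝ S X)).det := by
  refine det_one_add_pos ?_
  have a1 : ‖fderiv ℝ R X‖ ≤ C := norm_fderiv_le_of_lipschitz ℝ hR
  have a2 : ‖fderiv ℝ S X‖ ≤ C := norm_fderiv_le_of_lipschitz ℝ hS
  have a3 := norm_add_le (s • fderiv ℝ R X) (t • fderiv ℝ S X)
  rw [norm_smul, norm_smul, Real.norm_eq_abs, Real.norm_eq_abs] at a3
  have h4 : |s| * ‖fderiv ℝ R X‖ ≤ |s| * C := by gcongr
  have h5 : |t| * ‖fderiv ℝ S X‖ ≤ |t| * C := by gcongr
  linarith

end Gen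

/-- basis of the product -/
noncomputable def bs2 (E : Type*) [NormedAddCommGroup E] [InnerProductSpace ℝ E]
    [FiniteDimensional ℝ E] :
    Module.Basis (Fin (Module.finrank ℝ E) ⊕ Fin (Module.finrank ℝ E)) ℝ (E × E) :=
  (bs E).prod (bs E)

/-- Euclidean pairing on the product -/
noncomputable def ip (X Y : E × E) : ℝ := ⟪X.1, Y.1⟫ + ⟪X.2, Y.2⟫

theorem ip_comm (X Y : E × E) : ip X Y = ip Y X := by
  unfold ip; rw [real_inner_comm X.1, real_inner_comm X.2]

theorem ip_self (X : E × E) : ip X X = ‖X.1‖ ^ 2 + ‖X.2‖ ^ 2 := by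
  unfold ip; rw [real_inner_self_eq_norm_sq, real_inner_self_eq_norm_sq]

theorem abs_ip_le (X Y : E × E) : |ip X Y| ≤ (‖X.1‖ + ‖X.2‖) * ‖Y‖ := by
  unfold ip
  have h1 := abs_real_inner_le_norm X.1 Y.1
  have h2 := abs_real_inner_le_norm X.2 Y.2
  have h3 : ‖X.1‖ * ‖Y.1‖ ≤ ‖X.1‖ * ‖Y‖ := by gcongr; exact norm_fst_le Y
  have h4 : ‖X.2‖ * ‖Y.2‖ ≤ ‖X.2‖ * ‖Y‖ := by gcongr; exact norm_snd_le Y
  linarith [abs_add_le ⟪X.1, Y.1⟫ ⟪X.2, Y.2⟫]

/-- the contour integrand -/
noncomputable def cint (R S : E × E → E × E) (l : ℝ) (z w : ℂ) (X : E × E) : ℂ :=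
  cd2 (bs2 E) z w (fderiv ℝ R X) (fderiv ℝ S X) *
    Complex.exp (-l * (ip X X + 2 * z * ip X (R X) + 2 * w * ip X (S X) + z ^ 2 * ip (R X) (R X) +
      2 * z * w * ip (R X) (S X) + w ^ 2 * ip (S X) (S X)))

theorem cint_comm (R S : E × E → E × E) (l : ℝ) (z w : ℂ) (X : E × E) :
    cint R S l z w X = cint S R l w z X := by
  unfold cint
  rw [cd2_comm, ip_comm (S X) (R X)]
  congr 2
  ring

theorem measurable_cint2 {R S : E × E → E × E} (hR : Continuous R) (hS : Continuous S) (l : ℝ)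
    (z w : ℂ) : Measurable (cint R S l z w) := by
  unfold cint
  exact Measurable.mul (measurable_cd2 _ z w R S) (Continuous.measurable (by unfold ip; fun_prop))

theorem gauss_l {l : ℝ} (hl : 0 < l) : ∫ X : E × E, Real.exp (-l * ip X X) =
    (Real.pi / l) ^ Module.finrank ℝ E := by
  have h1 : ∀ X : E × E, Real.exp (-l * ip X X) =
      Real.exp (-l * ‖X.1‖ ^ 2) * Real.exp (-l * ‖X.2‖ ^ 2) := by
    intro X; rw [← Real.exp_add, ip_self]; congr 1; ring
  simp_rw [h1]
  rw [Measure.volume_eq_prod, integral_prod_mul (fun x : E => Real.exp (-l * ‖x‖ ^ 2))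
    (fun x : E => Real.exp (-l * ‖x‖ ^ 2)),
    GaussianFourier.integral_rexp_neg_mul_sq_norm hl,
    ← Real.rpow_add (by positivity), add_halves, Real.rpow_natCast]

theorem id_add_bij {F : Type*} [NormedAddCommGroup F] [CompleteSpace F] {R : F → F}
    (h : LipschitzWith (1 / 2) R) : Function.Bijective fun X => X + R X := by
  constructor
  · intro X Y hXY
    have h1 := h.dist_le_mul X Y
    have h2 : dist X Y = dist (R X) (R Y) := by
      rw [dist_eq_norm, dist_eq_norm, ← norm_neg]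
      congr 1
      rw [neg_sub, sub_eq_sub_iff_add_eq_add, add_comm (R X)]
      exact hXY.symm
    rw [← h2] at h1
    push_cast at h1
    have : dist X Y = 0 := by linarith [dist_nonneg (x := X) (y := Y)]
    exact dist_eq_zero.1 this
  · intro Y
    have hc : ContractingWith (1 / 2) fun X : F => Y - R X := by
      refine ⟨by norm_num, LipschitzWith.of_dist_le_mul fun X X' => ?_⟩
      rw [dist_sub_left]
      exact h.dist_le_mul X X'
    refine ⟨hc.fixedPoint, ?_⟩
    exact eq_sub_iff_add_eq.1 hc.fixedPoint_isFixedPt.symm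

theorem real_case2 {R S : E × E → E × E} {C : ℝ≥0} (hR : LipschitzWith C R)
    (hS : LipschitzWith C S) {l : ℝ} (hl : 0 < l) {s t : ℝ} (hs : |s| * C ≤ 1 / 4)
    (ht : |t| * C ≤ 1 / 4) :
    ∫ X : E × E, cint R S l s t X = (((Real.pi / l) ^ Module.finrank ℝ E : ℝ) : ℂ) := by
  set U : Set (E × E) := {X | DifferentiableAt ℝ R X} ∩ {X | DifferentiableAt ℝ S X} with hU
  have hUm : MeasurableSet U :=
    (measurableSet_of_differentiableAt ℝ R).inter (measurableSet_of_differentiableAt ℝ S)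
  have hU0 : volume Uᶜ = 0 := by
    rw [compl_inter]
    exact measure_union_null hR.ae_differentiableAt hS.ae_differentiableAt
  have hlip : LipschitzWith (1 / 2) fun X => s • R X + t • S X := by
    refine LipschitzWith.of_dist_le_mul fun X Y => ?_
    have h1 := hR.dist_le_mul X Y
    have h2 := hS.dist_le_mul X Y
    have h3 := dist_add_add_le (s • R X) (t • S X) (s • R Y) (t • S Y)
    rw [dist_smul₀, dist_smul₀, Real.norm_eq_abs, Real.norm_eq_abs] at h3
    have h4 : |s| * dist (R X) (R Y) ≤ |s| * (C * dist X Y) := by gcongr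
    have h5 : |t| * dist (S X) (S Y) ≤ |t| * (C * dist X Y) := by gcongr
    push_cast
    nlinarith [dist_nonneg (x := X) (y := Y)]
  have hbij := id_add_bij hlip
  have hlip2 : LipschitzWith (1 + 1 / 2) fun X => X + (s • R X + t • S X) :=
    LipschitzWith.id.add hlip
  have him : volume ((fun X => X + (s • R X + t • S X)) '' U)ᶜ = 0 := by
    rw [← image_compl_eq hbij]
    exact lip_image_null volume hlip2 hU0
  have h1 := integral_image_eq_integral_abs_det_fderiv_smul volume hUm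
    (f := fun X => X + (s • R X + t • S X))
    (f' := fun X => 1 + (s • fderiv ℝ R X + t • fderiv ℝ S X))
    (fun X hX => ((hasFDerivAt_id X).add ((hX.1.hasFDerivAt.const_smul s).add
      (hX.2.hasFDerivAt.const_smul t))).hasFDerivWithinAt) hbij.1.injOn
    (fun X : E × E => Real.exp (-l * ip X X))
  rw [Measure.restrict_eq_self_of_ae_mem (s := (fun X => X + (s • R X + t • S X)) '' U) him,
    Measure.restrict_eq_self_of_ae_mem (s := U) hU0, gauss_l hl] at h1
  rw [h1, ← integral_complex_ofReal]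
  refine integral_congr_ae (Eventually.of_forall fun X => ?_)
  have hpos := det_pos2 hR hS hs ht X
  dsimp only
  rw [abs_of_pos hpos, smul_eq_mul, cint, cd2_ofReal, Complex.ofReal_mul, Complex.ofReal_exp]
  congr 2
  have e : ip (X + (s • R X + t • S X)) (X + (s • R X + t • S X)) =
      ip X X + 2 * s * ip X (R X) + 2 * t * ip X (S X) + s ^ 2 * ip (R X) (R X) +
      2 * s * t * ip (R X) (S X) + t ^ 2 * ip (S X) (S X) := by
    simp only [ip, Prod.fst_add, Prod.snd_add, Prod.smul_fst, Prod.smul_snd, inner_add_left,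
      inner_add_right, inner_smul_left, inner_smul_right, conj_trivial]
    rw [real_inner_comm X.1 (R X).1, real_inner_comm X.2 (R X).2, real_inner_comm X.1 (S X).1,
      real_inner_comm X.2 (S X).2, real_inner_comm (R X).1 (S X).1,
      real_inner_comm (R X).2 (S X).2]
    ring
  rw [e]
  push_cast
  ring

theorem entire_const {F : ℂ → ℂ} (hF : Differentiable ℂ F) {c : ℂ} {δ : ℝ} (hδ : 0 < δ)
    (h : ∀ t : ℝ, 0 < t → t < δ → F t = c) (z : ℂ) : F z = c := by
  have han : AnalyticOnNhd ℂ F univ := hF.differentiableOn.analyticOnNhd isOpen_univ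
  have hfreq : ∃ᶠ z in 𝓝[≠] (0 : ℂ), F z = (fun _ => c) z := by
    have ht : Tendsto (fun t : ℝ => (t : ℂ)) (𝓝[>] 0) (𝓝[≠] 0) := by
      refine tendsto_nhdsWithin_iff.2 ⟨?_, ?_⟩
      · exact (Complex.continuous_ofReal.tendsto' 0 0 (by simp)).mono_left nhdsWithin_le_nhds
      · filter_upwards [self_mem_nhdsWithin] with t ht
        exact Complex.ofReal_ne_zero.2 (ne_of_gt ht)
    refine ht.frequently (Eventually.frequently ?_)
    filter_upwards [Ioo_mem_nhdsGT hδ] with t ht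
    exact h t ht.1 ht.2
  exact congrFun (han.eq_of_frequently_eq analyticOnNhd_const hfreq) z

theorem entire_cint {R S : E × E → E × E} {C : ℝ≥0} (hR : LipschitzWith C R)
    (hS : LipschitzWith C S) {D : ℝ} (bR : ∀ X, ‖R X‖ ≤ D) (bS : ∀ X, ‖S X‖ ≤ D) {l : ℝ}
    (hl : 0 < l) (z : ℂ) : Differentiable ℂ fun w => ∫ X : E × E, cint R S l z w X := by
  intro w₀
  set r := max ‖z‖ (‖w₀‖ + 1) with hr
  have hr0 : 0 ≤ r := (norm_nonneg z).trans (le_max_left _ _)
  have hD : 0 ≤ D := (norm_nonneg _).trans (bR 0)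
  obtain ⟨M, hM0, hM⟩ := cd2_bound (bs2 E) r C
  have hdiff : DifferentiableOn ℂ (fun w => ∫ X : E × E, cint R S l z w X) (ball 0 (‖w₀‖ + 1)) := by
    refine holo_integral isOpen_ball (fun X => ?_)
      (fun w => (measurable_cint2 hR.continuous hS.continuous l z w).aestronglyMeasurable)
      ((integrable_gauss (b := l / 2) (by positivity)).const_mul
        (M * Real.exp (24 * l * r ^ 2 * D ^ 2))) fun w hw X => ?_
    · unfold cint
      refine Differentiable.mul (differentiable_cd2 _ _ _ _) ?_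
      fun_prop
    · have hz : ‖z‖ ≤ r := le_max_left _ _
      have hw' : ‖w‖ ≤ r := (mem_ball_zero_iff.1 hw).le.trans (le_max_right _ _)
      unfold cint
      rw [norm_mul, Complex.norm_exp, mul_assoc M, ← Real.exp_add]
      refine mul_le_mul (hM _ _ _ _ _ hz hw' hR hS) (Real.exp_le_exp.2 ?_) (by positivity) hM0
      have f1 : ∀ Y : E × E, ‖Y‖ ≤ D → |ip X Y| ≤ (‖X.1‖ + ‖X.2‖) * D := fun Y hY =>
        (abs_ip_le X Y).trans (by gcongr)
      have f2 : ∀ Y Z : E × E, ‖Y‖ ≤ D → ‖Z‖ ≤ D → |ip Y Z| ≤ 2 * D ^ 2 := by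
        intro Y Z hY hZ
        refine (abs_ip_le Y Z).trans ?_
        have : (‖Y.1‖ + ‖Y.2‖) * ‖Z‖ ≤ (D + D) * D := by
          gcongr
          · exact (norm_fst_le Y).trans hY
          · exact (norm_snd_le Y).trans hY
        linarith
      have g1 := f1 _ (bR X)
      have g2 := f1 _ (bS X)
      have g3 := f2 _ _ (bR X) (bR X)
      have g4 := f2 _ _ (bR X) (bS X)
      have g5 := f2 _ _ (bS X) (bS X)
      rw [ip_self X]
      generalize ip X (R X) = a1 at *
      generalize ip X (S X) = a2 at *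
      generalize ip (R X) (R X) = a3 at *
      generalize ip (R X) (S X) = a4 at *
      generalize ip (S X) (S X) = a5 at *
      set T : ℂ := 2 * z * a1 + 2 * w * a2 + z ^ 2 * a3 + 2 * z * w * a4 + w ^ 2 * a5 with hT
      have hTn : ‖T‖ ≤ 4 * r * D * (‖X.1‖ + ‖X.2‖) + 8 * r ^ 2 * D ^ 2 := by
        have k1 : ‖2 * z * a1‖ ≤ 2 * r * ((‖X.1‖ + ‖X.2‖) * D) := by
          rw [norm_mul, norm_mul, Complex.norm_real, Real.norm_eq_abs, Complex.norm_two]; gcongr
        have k2 : ‖2 * w * a2‖ ≤ 2 * r * ((‖X.1‖ + ‖X.2‖) * D) := by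
          rw [norm_mul, norm_mul, Complex.norm_real, Real.norm_eq_abs, Complex.norm_two]; gcongr
        have k3 : ‖z ^ 2 * a3‖ ≤ r ^ 2 * (2 * D ^ 2) := by
          rw [norm_mul, norm_pow, Complex.norm_real, Real.norm_eq_abs]; gcongr
        have k4 : ‖2 * z * w * a4‖ ≤ 2 * r * r * (2 * D ^ 2) := by
          rw [norm_mul, norm_mul, norm_mul, Complex.norm_real, Real.norm_eq_abs, Complex.norm_two]
          gcongr
        have k5 : ‖w ^ 2 * a5‖ ≤ r ^ 2 * (2 * D ^ 2) := by
          rw [norm_mul, norm_pow, Complex.norm_real, Real.norm_eq_abs]; gcongr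
        have k6 : ‖T‖ ≤ ‖2 * z * a1‖ + ‖2 * w * a2‖ + ‖z ^ 2 * a3‖ + ‖2 * z * w * a4‖ +
            ‖w ^ 2 * a5‖ := by
          rw [hT]
          refine (norm_add_le _ _).trans (add_le_add ((norm_add_le _ _).trans (add_le_add
            ((norm_add_le _ _).trans (add_le_add (norm_add_le _ _) le_rfl)) le_rfl)) le_rfl)
        nlinarith
      have e : (-(l : ℂ) * (((‖X.1‖ ^ 2 + ‖X.2‖ ^ 2 : ℝ) : ℂ) + 2 * z * a1 + 2 * w * a2 +
          z ^ 2 * a3 + 2 * z * w * a4 + w ^ 2 * a5)).re =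
          -l * (‖X.1‖ ^ 2 + ‖X.2‖ ^ 2 + T.re) := by
        have : (-(l : ℂ) * (((‖X.1‖ ^ 2 + ‖X.2‖ ^ 2 : ℝ) : ℂ) + 2 * z * a1 + 2 * w * a2 +
          z ^ 2 * a3 + 2 * z * w * a4 + w ^ 2 * a5)) =
            ((-l : ℝ) : ℂ) * (((‖X.1‖ ^ 2 + ‖X.2‖ ^ 2 : ℝ) : ℂ) + T) := by
          rw [hT]; push_cast; ring
        rw [this, Complex.re_ofReal_mul, Complex.add_re, Complex.ofReal_re]
      rw [e]
      have k7 : -‖T‖ ≤ T.re := (abs_le.1 (Complex.abs_re_le_norm T)).1
      have k8 : 4 * r * D * (‖X.1‖ + ‖X.2‖) ≤ (‖X.1‖ ^ 2 + ‖X.2‖ ^ 2) / 2 + 16 * r ^ 2 * D ^ 2 := by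
        nlinarith [sq_nonneg (‖X.1‖ - 4 * r * D), sq_nonneg (‖X.2‖ - 4 * r * D)]
      nlinarith
  exact (hdiff w₀ (mem_ball_zero_iff.2 (by linarith))).differentiableAt
    (isOpen_ball.mem_nhds (mem_ball_zero_iff.2 (by linarith)))

theorem contour2 {R S : E × E → E × E} {C : ℝ≥0} (hR : LipschitzWith C R)
    (hS : LipschitzWith C S) {D : ℝ} (bR : ∀ X, ‖R X‖ ≤ D) (bS : ∀ X, ‖S X‖ ≤ D) {l : ℝ}
    (hl : 0 < l) (z w : ℂ) :
    ∫ X : E × E, cint R S l z w X = (((Real.pi / l) ^ Module.finrank ℝ E : ℝ) : ℂ) := by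
  have hC : (0 : ℝ) ≤ C := C.2
  have hδ : (0 : ℝ) < 1 / (4 * (C + 1)) := by positivity
  have hs : ∀ t : ℝ, 0 < t → t < 1 / (4 * (C + 1)) → |t| * C ≤ 1 / 4 := by
    intro t h0 h1
    rw [abs_of_pos h0]
    rw [lt_div_iff₀ (by positivity)] at h1
    nlinarith
  simp_rw [cint_comm R S l z w]
  refine entire_const (entire_cint hS hR bS bR hl w) hδ (fun s s0 s1 => ?_) z
  simp_rw [cint_comm S R l w s]
  refine entire_const (entire_cint hR hS bR bS hl s) hδ (fun t t0 t1 => ?_) w
  exact real_case2 hR hS hl (hs s s0 s1) (hs t t0 t1)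

end Pool.Agent.MP_5f4cdd_gt.NW
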