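import Pool.Agent.MP_5f4cdd_gt.NW.Chart
import Pool.Agent.MP_5f4cdd_gt.T4Prox

set_option autoImplicit false
set_option linter.unusedSectionVars false
open Set Filter Topology MeasureTheory Metric
open scoped RealInnerProductSpace NNReal ENNReal

namespace Pool.Agent.MP_5f4cdd_gt.NW

open T4

variable {E : Type*} [NormedAddCommGroup E] [InnerProductSpace ℝ E] [FiniteDimensional ℝ E]
  [MeasurableSpace E] [BorelSpace E] {J : Type*} [MeasurableSpace J]

/-- the point of index `j` -/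
def pt (p q : J → ℝ) (j : J) (X : E × E) : E := p j • X.1 + q j • X.2

/-- weighted mean of the gradients -/
noncomputable def nw (μ : Measure J) (P : E → E) (p q u : J → ℝ) (X : E × E) : E :=
  ∫ j, u j • P (pt p q j X) ∂μ

/-- measurable and essentially bounded -/
def MB (μ : Measure J) (B : ℝ) (u : J → ℝ) : Prop := Measurable u ∧ ∀ᵐ j ∂μ, |u j| ≤ B

theorem MB.add {μ : Measure J} {B B' : ℝ} {u w : J → ℝ} (h : MB μ B u) (h' : MB μ B' w) :
    MB μ (B + B') fun j => u j + w j :=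
  ⟨h.1.add h'.1, by
    filter_upwards [h.2, h'.2] with j a b using (abs_add_le _ _).trans (add_le_add a b)⟩

theorem MB.mul {μ : Measure J} {B B' : ℝ} {u w : J → ℝ} (h : MB μ B u) (h' : MB μ B' w) :
    MB μ (B * B') fun j => u j * w j :=
  ⟨h.1.mul h'.1, by
    filter_upwards [h.2, h'.2] with j a b
    rw [abs_mul]
    exact mul_le_mul a b (abs_nonneg _) ((abs_nonneg _).trans a)⟩

theorem MB.const {μ : Measure J} (c : ℝ) : MB μ |c| fun _ => c :=
  ⟨measurable_const, Eventually.of_forall fun _ => le_rfl⟩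

theorem pt_sub (p q : J → ℝ) (j : J) (X Y : E × E) : pt p q j X - pt p q j Y = pt p q j (X - Y) := by
  simp only [pt, Prod.fst_sub, Prod.snd_sub]; module

theorem pt_line (p q : J → ℝ) (j : J) (X Y : E × E) (t : ℝ) :
    pt p q j (X + t • Y) = pt p q j X + t • pt p q j Y := by
  simp only [pt, Prod.fst_add, Prod.snd_add, Prod.smul_fst, Prod.smul_snd]; module

theorem norm_pt_le {p q : J → ℝ} {j : J} {B : ℝ} (hp : |p j| ≤ B) (hq : |q j| ≤ B) (X : E × E) :
    ‖pt p q j X‖ ≤ 2 * B * ‖X‖ := by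
  unfold pt
  refine (norm_add_le _ _).trans ?_
  rw [norm_smul, norm_smul, Real.norm_eq_abs, Real.norm_eq_abs]
  have hB : 0 ≤ B := (abs_nonneg _).trans hp
  have h1 : |p j| * ‖X.1‖ ≤ B * ‖X‖ := by gcongr; exact norm_fst_le X
  have h2 : |q j| * ‖X.2‖ ≤ B * ‖X‖ := by gcongr; exact norm_snd_le X
  linarith

theorem measurable_pt {p q : J → ℝ} (hp : Measurable p) (hq : Measurable q) (X : E × E) :
    Measurable fun j => pt p q j X := (hp.smul_const _).add (hq.smul_const _)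

variable {μ : Measure J} [IsProbabilityMeasure μ] {K : Set E} {v : E → ℝ} {P : E → E}
  {p q u : J → ℝ} {B D : ℝ}

theorem integrable_smul {f : J → E} (hf : Measurable f) {B' : ℝ} (hb : ∀ j, ‖f j‖ ≤ D)
    (hu : MB μ B' u) : Integrable (fun j => u j • f j) μ := by
  refine (integrable_const (B' * D)).mono' (hu.1.smul hf).aestronglyMeasurable ?_
  filter_upwards [hu.2] with j hj
  rw [norm_smul, Real.norm_eq_abs]
  exact mul_le_mul hj (hb j) (norm_nonneg _) ((abs_nonneg _).trans hj)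

theorem integrable_nw (hP : IsProx K v P) (hD : ∀ y ∈ K, ‖y‖ ≤ D) (hp : MB μ B p) (hq : MB μ B q)
    {B' : ℝ} (hu : MB μ B' u) (X : E × E) : Integrable (fun j => u j • P (pt p q j X)) μ :=
  integrable_smul (hP.continuous.measurable.comp (measurable_pt hp.1 hq.1 X))
    (fun _ => hD _ (hP.mem _)) hu

theorem norm_nw_le (hP : IsProx K v P) (hD : ∀ y ∈ K, ‖y‖ ≤ D) (hu : MB μ B u) (X : E × E) :
    ‖nw μ P p q u X‖ ≤ B * D := by
  have := norm_integral_le_of_norm_le_const (μ := μ) (C := B * D)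
    (f := fun j => u j • P (pt p q j X)) (by
      filter_upwards [hu.2] with j hj
      rw [norm_smul, Real.norm_eq_abs]
      exact mul_le_mul hj (hD _ (hP.mem _)) (norm_nonneg _) ((abs_nonneg _).trans hj))
  simpa [nw] using this

theorem lip_nw (hP : IsProx K v P) (hD : ∀ y ∈ K, ‖y‖ ≤ D) (hp : MB μ B p) (hq : MB μ B q)
    (hu : MB μ B u) : LipschitzWith (Real.nnabs (2 * B * B)) (nw μ P p q u) := by
  refine LipschitzWith.of_dist_le_mul fun X Y => ?_
  rw [dist_eq_norm, dist_eq_norm, nw, nw,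
    ← integral_sub (integrable_nw hP hD hp hq hu X) (integrable_nw hP hD hp hq hu Y)]
  have := norm_integral_le_of_norm_le_const (μ := μ) (C := |2 * B * B| * ‖X - Y‖)
    (f := fun j => u j • P (pt p q j X) - u j • P (pt p q j Y)) (by
      filter_upwards [hu.2, hp.2, hq.2] with j hj hj1 hj2
      rw [← smul_sub, norm_smul, Real.norm_eq_abs]
      have h1 := hP.norm_sub_le (pt p q j X) (pt p q j Y)
      rw [pt_sub] at h1
      have hB : 0 ≤ B := (abs_nonneg _).trans hj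
      rw [abs_of_nonneg (by positivity : 0 ≤ 2 * B * B)]
      calc |u j| * ‖P (pt p q j X) - P (pt p q j Y)‖ ≤ B * (2 * B * ‖X - Y‖) :=
            mul_le_mul hj (h1.trans (norm_pt_le hj1 hj2 _)) (norm_nonneg _) hB
        _ = _ := by ring)
  simpa using this

theorem ae_good (hP : IsProx K v P) (hp : Measurable p) (hq : Measurable q)
    (hpq : ∀ᵐ j ∂μ, p j ≠ 0 ∨ q j ≠ 0) :
    ∀ᵐ X : E × E, ∀ᵐ j ∂μ, DifferentiableAt ℝ P (pt p q j X) := by
  have hm := measurableSet_of_differentiableAt ℝ P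
  have hm2 : Measurable fun x : J × (E × E) => pt p q x.1 x.2 := by
    unfold pt
    fun_prop
  refine (Measure.ae_ae_comm (p := fun j X => DifferentiableAt ℝ P (pt p q j X)) (hm2 hm)).1 ?_
  filter_upwards [hpq] with j hj
  set L : (E × E) →ₗ[ℝ] E := p j • LinearMap.fst ℝ E E + q j • LinearMap.snd ℝ E E with hL
  have hsurj : Function.Surjective L := by
    intro y
    rcases hj with hj | hj
    · exact ⟨((p j)⁻¹ • y, 0), by simp [hL, smul_smul, hj]⟩
    · exact ⟨(0, (q j)⁻¹ • y), by simp [hL, smul_smul, hj]⟩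
  exact (ae_comp_linearMap_mem_iff L volume volume hsurj hm).2 hP.lipschitz.ae_differentiableAt

theorem measurable_H (hp : Measurable p) (hq : Measurable q) (X : E × E) (y : E) :
    Measurable fun j => fderiv ℝ P (pt p q j X) y :=
  (measurable_fderiv_apply_const ℝ P y).comp (measurable_pt hp hq X)

theorem norm_H_le (hP : IsProx K v P) (x y : E) : ‖fderiv ℝ P x y‖ ≤ ‖y‖ := by
  simpa using fderiv_apply_le hP.lipschitz x y

theorem integrable_H (hP : IsProx K v P) (hp : MB μ B p) (hq : MB μ B q) {B' : ℝ}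
    (hu : MB μ B' u) (X : E × E) (y : E) :
    Integrable (fun j => u j • fderiv ℝ P (pt p q j X) y) μ :=
  integrable_smul (measurable_H hp.1 hq.1 X y) (fun _ => norm_H_le hP _ y) hu

theorem fderiv_nw (hP : IsProx K v P) (hD : ∀ y ∈ K, ‖y‖ ≤ D) (hp : MB μ B p) (hq : MB μ B q)
    (hu : MB μ B u) {X : E × E} (hX : ∀ᵐ j ∂μ, DifferentiableAt ℝ P (pt p q j X))
    (hd : DifferentiableAt ℝ (nw μ P p q u) X) (Y : E × E) :
    fderiv ℝ (nw μ P p q u) X Y = ∫ j, u j • fderiv ℝ P (pt p q j X) (pt p q j Y) ∂μ := by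
  have l0 : ∀ Z W : E × E, HasDerivAt (fun t : ℝ => Z + t • W) W 0 := fun Z W => by
    simpa using ((hasDerivAt_id (0 : ℝ)).smul_const W).const_add Z
  have h1 : HasDerivAt (fun t : ℝ => nw μ P p q u (X + t • Y)) (fderiv ℝ (nw μ P p q u) X Y) 0 := by
    have h3 : HasFDerivAt (nw μ P p q u) (fderiv ℝ (nw μ P p q u) X) (X + (0 : ℝ) • Y) := by
      simpa using hd.hasFDerivAt
    exact h3.comp_hasDerivAt (0 : ℝ) (l0 X Y)
  have h2 := hasDerivAt_integral_of_dominated_loc_of_lip (μ := μ) (s := univ) (x₀ := (0 : ℝ))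
    (F := fun (t : ℝ) j => u j • P (pt p q j (X + t • Y)))
    (F' := fun j => u j • fderiv ℝ P (pt p q j X) (pt p q j Y))
    (bound := fun _ => B * (2 * B * ‖Y‖)) univ_mem
    (Eventually.of_forall fun t => (integrable_nw hP hD hp hq hu _).1)
    (integrable_nw hP hD hp hq hu _) ?_ ?_ (integrable_const _) ?_
  · exact h1.unique h2.2
  · refine (hu.1.smul ?_).aestronglyMeasurable
    simp only [pt, map_add, map_smul]
    exact (hp.1.smul (measurable_H hp.1 hq.1 X _)).add (hq.1.smul (measurable_H hp.1 hq.1 X _))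
  · filter_upwards [hu.2, hp.2, hq.2] with j hj hj1 hj2
    refine LipschitzWith.lipschitzOnWith (LipschitzWith.of_dist_le_mul fun s t => ?_)
    have hB : 0 ≤ B := (abs_nonneg _).trans hj
    rw [dist_eq_norm, ← smul_sub, norm_smul, Real.norm_eq_abs, Real.coe_nnabs,
      abs_of_nonneg (by positivity : 0 ≤ B * (2 * B * ‖Y‖))]
    have h4 := hP.norm_sub_le (pt p q j (X + s • Y)) (pt p q j (X + t • Y))
    rw [pt_line, pt_line, add_sub_add_left_eq_sub, ← sub_smul, norm_smul] at h4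
    rw [pt_line, pt_line]
    calc _ ≤ B * (‖s - t‖ * (2 * B * ‖Y‖)) := by
          refine mul_le_mul hj (h4.trans ?_) (norm_nonneg _) hB
          gcongr
          exact norm_pt_le hj1 hj2 _
      _ = _ := by rw [dist_eq_norm]; ring
  · filter_upwards [hX] with j hj
    simp_rw [pt_line]
    have h3 : HasFDerivAt P (fderiv ℝ P (pt p q j X)) (pt p q j X + (0 : ℝ) • pt p q j Y) := by
      simpa using hj.hasFDerivAt
    have h4 : HasDerivAt (fun t : ℝ => pt p q j X + t • pt p q j Y) (pt p q j Y) 0 := by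
      simpa using ((hasDerivAt_id (0 : ℝ)).smul_const (pt p q j Y)).const_add (pt p q j X)
    exact (h3.comp_hasDerivAt (0 : ℝ) h4).const_smul (u j)

theorem inner_p1 (hP : IsProx K v P) (hD : ∀ y ∈ K, ‖y‖ ≤ D) (hp : MB μ B p) (hq : MB μ B q)
    (hu : MB μ B u) {X : E × E} (hX : ∀ᵐ j ∂μ, DifferentiableAt ℝ P (pt p q j X))
    (hd : DifferentiableAt ℝ (nw μ P p q u) X) (x y : E) :
    ⟪x, p1 (fderiv ℝ (nw μ P p q u) X) y⟫ =
      ∫ j, u j * p j * ⟪x, fderiv ℝ P (pt p q j X) y⟫ ∂μ := by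
  have e : p1 (fderiv ℝ (nw μ P p q u) X) y = ∫ j, (u j * p j) • fderiv ℝ P (pt p q j X) y ∂μ := by
    refine (fderiv_nw hP hD hp hq hu hX hd (y, 0)).trans ?_
    simp [pt, smul_smul]
  rw [e, ← integral_inner (integrable_H hP hp hq (hu.mul hp) X y)]
  simp only [inner_smul_right]

theorem inner_p2 (hP : IsProx K v P) (hD : ∀ y ∈ K, ‖y‖ ≤ D) (hp : MB μ B p) (hq : MB μ B q)
    (hu : MB μ B u) {X : E × E} (hX : ∀ᵐ j ∂μ, DifferentiableAt ℝ P (pt p q j X))
    (hd : DifferentiableAt ℝ (nw μ P p q u) X) (x y : E) :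
    ⟪x, p2 (fderiv ℝ (nw μ P p q u) X) y⟫ =
      ∫ j, u j * q j * ⟪x, fderiv ℝ P (pt p q j X) y⟫ ∂μ := by
  have e : p2 (fderiv ℝ (nw μ P p q u) X) y = ∫ j, (u j * q j) • fderiv ℝ P (pt p q j X) y ∂μ := by
    refine (fderiv_nw hP hD hp hq hu hX hd (0, y)).trans ?_
    simp [pt, smul_smul]
  rw [e, ← integral_inner (integrable_H hP hp hq (hu.mul hq) X y)]
  simp only [inner_smul_right]

theorem integrable_ip (hP : IsProx K v P) (hp : MB μ B p) (hq : MB μ B q) {B' : ℝ}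
    (hu : MB μ B' u) (X : E × E) (x y : E) :
    Integrable (fun j => u j * ⟪x, fderiv ℝ P (pt p q j X) y⟫) μ := by
  have := (integrable_H hP hp hq hu X y).const_inner (𝕜 := ℝ) x
  simpa only [inner_smul_right] using this

theorem inner_op (hP : IsProx K v P) (hD : ∀ y ∈ K, ‖y‖ ≤ D) (hp : MB μ B p) (hq : MB μ B q)
    (hu : MB μ B u) {X : E × E} (hX : ∀ᵐ j ∂μ, DifferentiableAt ℝ P (pt p q j X))
    (hd : DifferentiableAt ℝ (nw μ P p q u) X) (a b : ℝ) (x y : E) :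
    ⟪x, op a b (fderiv ℝ (nw μ P p q u) X) y⟫ =
      ∫ j, u j * (a * q j + b * p j) * ⟪x, fderiv ℝ P (pt p q j X) y⟫ ∂μ := by
  simp only [op, _root_.add_apply, _root_.smul_apply, inner_add_right, inner_smul_right]
  rw [inner_p1 hP hD hp hq hu hX hd, inner_p2 hP hD hp hq hu hX hd, ← integral_const_mul,
    ← integral_const_mul, ← integral_add ((integrable_ip hP hp hq (hu.mul hq) X x y).const_mul a)
      ((integrable_ip hP hp hq (hu.mul hp) X x y).const_mul b)]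
  congr 1
  ext j
  ring

theorem op_pos (hP : IsProx K v P) (hD : ∀ y ∈ K, ‖y‖ ≤ D) (hp : MB μ B p) (hq : MB μ B q)
    (hu : MB μ B u) {X : E × E} (hX : ∀ᵐ j ∂μ, DifferentiableAt ℝ P (pt p q j X))
    (hd : DifferentiableAt ℝ (nw μ P p q u) X) {a b : ℝ}
    (h : ∀ᵐ j ∂μ, 0 ≤ u j * (a * q j + b * p j)) :
    ((op a b (fderiv ℝ (nw μ P p q u) X) : E →L[ℝ] E) : E →ₗ[ℝ] E).IsPositive := by
  refine ⟨fun x y => ?_, fun x => ?_⟩
  · simp only [ContinuousLinearMap.coe_coe]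
    rw [real_inner_comm, inner_op hP hD hp hq hu hX hd, inner_op hP hD hp hq hu hX hd]
    refine integral_congr_ae ?_
    filter_upwards [hX] with j hj
    rw [real_inner_comm, hP.symm hj.hasFDerivAt, real_inner_comm]
  · simp only [ContinuousLinearMap.coe_coe, RCLike.re_to_real]
    rw [real_inner_comm, inner_op hP hD hp hq hu hX hd]
    refine integral_nonneg_of_ae ?_
    filter_upwards [hX, h] with j hj hj'
    have := hP.firm_deriv hj.hasFDerivAt x
    rw [real_inner_comm] at this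
    exact mul_nonneg hj' ((sq_nonneg _).trans this)

theorem cs_point {H : E →L[ℝ] E} (hs : ∀ a b : E, ⟪a, H b⟫ = ⟪b, H a⟫) (hn : ∀ a : E, 0 ≤ ⟪a, H a⟫)
    {g₁ g₂ β₁ β₂ : ℝ} (h₁ : 0 ≤ β₁) (h₂ : 0 ≤ β₂) (h : g₁ ^ 2 + g₂ ^ 2 ≤ β₁ * β₂)
    (x₁ x₂ y₁ y₂ : E) :
    2 * (g₁ * ⟪x₁, H y₁⟫ + g₁ * ⟪x₂, H y₂⟫ - g₂ * ⟪x₁, H y₂⟫ + g₂ * ⟪x₂, H y₁⟫) ≤
      β₁ * ⟪x₁, H x₁⟫ + β₁ * ⟪x₂, H x₂⟫ + (β₂ * ⟪y₁, H y₁⟫ + β₂ * ⟪y₂, H y₂⟫) := by
  have a1 := hn x₁
  have a2 := hn x₂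
  have a3 := hn y₁
  have a4 := hn y₂
  rcases h₁.eq_or_lt with h0 | h0
  · rw [← h0, zero_mul] at h
    have e1 : g₁ = 0 := by nlinarith [sq_nonneg g₁, sq_nonneg g₂]
    have e2 : g₂ = 0 := by nlinarith [sq_nonneg g₁, sq_nonneg g₂]
    rw [e1, e2, ← h0]
    nlinarith [mul_nonneg h₂ a3, mul_nonneg h₂ a4]
  · have b1 := hn (β₁ • x₁ - (g₁ • y₁ - g₂ • y₂))
    have b2 := hn (β₁ • x₂ - (g₁ • y₂ + g₂ • y₁))
    simp only [map_sub, map_add, map_smul, inner_sub_left, inner_sub_right, inner_add_left,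
      inner_add_right, inner_smul_left, inner_smul_right, conj_trivial] at b1 b2
    rw [hs y₁ x₁, hs y₂ x₁, hs y₂ y₁] at b1
    rw [hs y₁ x₂, hs y₂ x₂, hs y₂ y₁] at b2
    have c := mul_le_mul_of_nonneg_right h (add_nonneg a3 a4)
    refine le_of_mul_le_mul_left ?_ h0
    nlinarith

theorem chart_inj (hP : IsProx K v P) (hD : ∀ y ∈ K, ‖y‖ ≤ D) (hp : MB μ B p) (hq : MB μ B q)
    (hu : MB μ B u) {a b σ : ℝ} (ha : a ≠ 0) (hσ : σ ≠ 0)
    (h : ∀ᵐ j ∂μ, 0 ≤ σ * (u j * (a * q j - b * p j))) (X Y : E × E)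
    (hXY : chart a b (nw μ P p q u) X = chart a b (nw μ P p q u) Y) (t : ℝ) (ht : 0 ≤ t)
    (ht1 : t ≤ 1) :
    chart a b (nw μ P p q u) (X + t • (Y - X)) = chart a b (nw μ P p q u) X := by
  simp only [chart, Prod.mk.injEq] at hXY ⊢
  obtain ⟨e1, e2⟩ := hXY
  have e3 : a • (Y.1 - X.1) + b • (Y.2 - X.2) = 0 := by
    rw [smul_sub, smul_sub, sub_add_sub_comm, e1, sub_self]
  refine ⟨?_, ?_⟩
  · simp only [Prod.fst_add, Prod.snd_add, Prod.smul_fst, Prod.smul_snd, Prod.fst_sub, Prod.snd_sub]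
    calc _ = a • X.1 + b • X.2 + t • (a • (Y.1 - X.1) + b • (Y.2 - X.2)) := by module
      _ = _ := by rw [e3, smul_zero, add_zero]
  set ζ : E := a⁻¹ • (Y.2 - X.2) with hζ
  have e4 : ∀ j, pt p q j Y - pt p q j X = (a * q j - b * p j) • ζ := by
    intro j
    have e5 : Y.1 - X.1 = (-b) • ζ := by
      have : a • (Y.1 - X.1) = a • ((-b) • ζ) := by
        rw [hζ, smul_smul, smul_smul, show a * -b * a⁻¹ = -b by field_simp, neg_smul,
          eq_neg_iff_add_eq_zero, e3]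
      exact smul_right_injective E ha this
    have e6 : Y.2 - X.2 = a • ζ := by rw [hζ, smul_smul, mul_inv_cancel₀ ha, one_smul]
    rw [pt_sub, pt, Prod.fst_sub, Prod.snd_sub, e5, e6]
    module
  have hf : ∀ j, ‖P (pt p q j Y) - P (pt p q j X)‖ ^ 2 ≤
      (a * q j - b * p j) * ⟪P (pt p q j Y) - P (pt p q j X), ζ⟫ := by
    intro j
    have := hP.firm (pt p q j Y) (pt p q j X)
    rwa [e4, inner_smul_right] at this
  have hz : ∀ j, a * q j - b * p j = 0 → P (pt p q j Y) = P (pt p q j X) := by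
    intro j hj
    have := e4 j
    rw [hj, zero_smul, sub_eq_zero] at this
    rw [this]
  set f : J → ℝ := fun j => σ * ⟪ζ, u j • P (pt p q j Y) - u j • P (pt p q j X)⟫ with hfd
  have hfe : ∀ j, f j = σ * (u j * ⟪P (pt p q j Y) - P (pt p q j X), ζ⟫) := by
    intro j
    rw [hfd]
    simp only
    rw [← smul_sub, inner_smul_right, real_inner_comm]
  have hi := (integrable_nw hP hD hp hq hu Y).sub (integrable_nw hP hD hp hq hu X)
  have hfi : Integrable f μ := (hi.const_inner (𝕜 := ℝ) ζ).const_mul σ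
  have hf0 : 0 ≤ᵐ[μ] f := by
    filter_upwards [h] with j hj
    rw [hfe]
    by_cases h0 : a * q j - b * p j = 0
    · rw [hz j h0]; simp
    · have h1 := (sq_nonneg _).trans (hf j)
      have h2 : 0 < (a * q j - b * p j) ^ 2 := by positivity
      refine le_of_mul_le_mul_left ?_ h2
      have := mul_nonneg hj h1
      simp only [Pi.zero_apply]
      nlinarith
  have hI : ∫ j, f j ∂μ = 0 := by
    rw [hfd, integral_const_mul]
    have := integral_inner (𝕜 := ℝ) hi ζ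
    simp only [Pi.sub_apply] at this
    rw [this, integral_sub (integrable_nw hP hD hp hq hu Y) (integrable_nw hP hD hp hq hu X)]
    change σ * ⟪ζ, nw μ P p q u Y - nw μ P p q u X⟫ = 0
    rw [e2, sub_self, inner_zero_right, mul_zero]
  have hz2 := (integral_eq_zero_iff_of_nonneg_ae hf0 hfi).1 hI
  refine integral_congr_ae ?_
  filter_upwards [hz2] with j hj
  rw [hfe] at hj
  simp only [Pi.zero_apply, mul_eq_zero, hσ, false_or] at hj
  rcases hj with hj | hj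
  · rw [hj, zero_smul, zero_smul]
  · have h1 := hf j
    rw [hj, mul_zero] at h1
    have h2 : ‖P (pt p q j Y) - P (pt p q j X)‖ = 0 := by
      nlinarith [norm_nonneg (P (pt p q j Y) - P (pt p q j X))]
    rw [pt_line, ← pt_sub, hP.fibre (sub_eq_zero.1 (norm_eq_zero.1 h2)).symm ht ht1]

theorem network (hP : IsProx K v P) (hD : ∀ y ∈ K, ‖y‖ ≤ D) {u₁ u₂ c₁ c₂ : J → ℝ}
    (hp : MB μ B p) (hq : MB μ B q) (hu₁ : MB μ B u₁) (hu₂ : MB μ B u₂) (hc₁ : MB μ B c₁)
    (hc₂ : MB μ B c₂) (hpq : ∀ᵐ j ∂μ, p j ≠ 0 ∨ q j ≠ 0) {a b κ : ℝ} (ha : a ≠ 0) (hκ : 0 < κ)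
    (h₁ : ∀ᵐ j ∂μ, 0 ≤ c₁ j * (a * q j + b * p j))
    (h₂ : ∀ᵐ j ∂μ, 0 ≤ c₂ j * (-a * q j + b * p j))
    (h₃ : ∀ᵐ j ∂μ, (u₁ j ^ 2 + u₂ j ^ 2) * (p j ^ 2 + q j ^ 2) ≤
      κ ^ 2 * (c₁ j * (a * q j + b * p j) * (c₂ j * (-a * q j + b * p j))))
    {g : E × E → ℝ} (hg0 : ∀ Y, 0 ≤ g Y) (hgm : Measurable g)
    (hexp : ∀ X : E × E, Real.exp (-(⟪X.1, nw μ P p q u₁ X⟫ + ⟪X.2, nw μ P p q u₂ X⟫)) ^ 2 ≤
      g (chart a (-b) (nw μ P p q c₁) X) * g (chart a b (nw μ P p q c₂) X))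
    (hint : Integrable fun X : E × E =>
      Real.exp (-(⟪X.1, nw μ P p q u₁ X⟫ + ⟪X.2, nw μ P p q u₂ X⟫))) :
    ENNReal.ofReal ((2 * Real.pi / κ) ^ Module.finrank ℝ E) ≤ ∫⁻ Y, ENNReal.ofReal (g Y) := by
  have l₁ := lip_nw hP hD hp hq hu₁
  have l₂ := lip_nw hP hD hp hq hu₂
  have l₃ := lip_nw hP hD hp hq hc₁
  have l₄ := lip_nw hP hD hp hq hc₂
  refine two_charts l₁ l₂ l₃ l₄ (norm_nw_le hP hD hu₁) (norm_nw_le hP hD hu₂) ha hκ hg0 hgm ?_
    (chart_inj hP hD hp hq hc₁ ha one_ne_zero ?_)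
    (chart_inj hP hD hp hq hc₂ ha (neg_ne_zero.2 one_ne_zero) ?_) hexp hint
  · filter_upwards [ae_good hP hp.1 hq.1 hpq, l₁.ae_differentiableAt, l₂.ae_differentiableAt,
      l₃.ae_differentiableAt, l₄.ae_differentiableAt] with X hX d₁ d₂ d₃ d₄
    refine ⟨op_pos hP hD hp hq hc₁ hX d₃ h₁, op_pos hP hD hp hq hc₂ hX d₄ h₂,
      fun x₁ x₂ y₁ y₂ => ?_⟩
    have m₁ := hc₁.mul (((MB.const a).mul hq).add ((MB.const b).mul hp))
    have m₂ := hc₂.mul (((MB.const (-a)).mul hq).add ((MB.const b).mul hp))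
    have i₁ := integrable_ip hP hp hq (hu₁.mul hp) X
    have i₂ := integrable_ip hP hp hq (hu₁.mul hq) X
    have i₃ := integrable_ip hP hp hq (hu₂.mul hp) X
    have i₄ := integrable_ip hP hp hq (hu₂.mul hq) X
    have i₅ := integrable_ip hP hp hq m₁ X
    have i₆ := integrable_ip hP hp hq m₂ X
    simp only [_root_.add_apply, _root_.sub_apply, inner_add_right, inner_sub_right,
      inner_op hP hD hp hq hc₁ hX d₃, inner_op hP hD hp hq hc₂ hX d₄,
      inner_p1 hP hD hp hq hu₁ hX d₁, inner_p2 hP hD hp hq hu₁ hX d₁,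
      inner_p1 hP hD hp hq hu₂ hX d₂, inner_p2 hP hD hp hq hu₂ hX d₂]
    have j₁ := fun x y => (i₁ x y).add (i₄ x y)
    have j₂ := fun x y => (i₂ x y).sub (i₃ x y)
    have k₁ := (((j₁ x₁ y₁).add (j₁ x₂ y₂)).sub (j₂ x₁ y₂)).add (j₂ x₂ y₁)
    have k₂ := ((i₅ x₁ x₁).add (i₅ x₂ x₂)).add ((i₆ y₁ y₁).add (i₆ y₂ y₂))
    have hle := integral_mono_ae (k₁.const_mul 2) (k₂.const_mul κ) (by
      filter_upwards [hX, h₁, h₂, h₃] with j hj a₁ a₂ a₃
      have := cs_point (H := fderiv ℝ P (pt p q j X))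
        (fun x y => by rw [real_inner_comm, hP.symm hj.hasFDerivAt, real_inner_comm])
        (fun x => by
          have := hP.firm_deriv hj.hasFDerivAt x
          rw [real_inner_comm] at this
          exact (sq_nonneg _).trans this)
        (g₁ := u₁ j * p j + u₂ j * q j) (g₂ := u₁ j * q j - u₂ j * p j)
        (mul_nonneg hκ.le a₁) (mul_nonneg hκ.le a₂) (by nlinarith) x₁ x₂ y₁ y₂
      simp only [Pi.add_apply, Pi.sub_apply]
      linarith)
    rw [integral_const_mul, integral_const_mul, integral_add' (((j₁ x₁ y₁).add (j₁ x₂ y₂)).sub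
      (j₂ x₁ y₂)) (j₂ x₂ y₁), integral_sub' ((j₁ x₁ y₁).add (j₁ x₂ y₂)) (j₂ x₁ y₂),
      integral_add' (j₁ x₁ y₁) (j₁ x₂ y₂), integral_add' (i₁ _ _) (i₄ _ _),
      integral_add' (i₁ _ _) (i₄ _ _), integral_sub' (i₂ _ _) (i₃ _ _),
      integral_sub' (i₂ _ _) (i₃ _ _), integral_add' ((i₅ x₁ x₁).add (i₅ x₂ x₂))
      ((i₆ y₁ y₁).add (i₆ y₂ y₂)), integral_add' (i₅ _ _) (i₅ _ _),
      integral_add' (i₆ _ _) (i₆ _ _)] at hle
    exact hle
  · filter_upwards [h₁] with j hj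
    rw [one_mul, neg_mul, sub_neg_eq_add]; exact hj
  · filter_upwards [h₂] with j hj
    linarith

end Pool.Agent.MP_5f4cdd_gt.NW
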