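import Pool.Agent.MP_5f4cdd_gt.NW.GC
import Pool.Agent.MP_5f4cdd_gt.NW.Det

set_option autoImplicit false
set_option linter.unusedSectionVars false
open Set Filter Topology MeasureTheory Metric Matrix
open scoped RealInnerProductSpace NNReal

namespace Pool.Agent.MP_5f4cdd_gt.NW

open T4

variable {E : Type*} [NormedAddCommGroup E] [InnerProductSpace ℝ E] [FiniteDimensional ℝ E]

theorem mt_apply (A : E →L[ℝ] E) (i j : Fin (Module.finrank ℝ E)) :
    mt (bs E) A i j = ⟪bs E i, A (bs E j)⟫ := by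
  simp [mt, bs, LinearMap.toMatrix_apply, OrthonormalBasis.repr_apply_apply]

theorem mt_form (A : E →L[ℝ] E) (x y : Fin (Module.finrank ℝ E) → ℝ) :
    x ⬝ᵥ (mt (bs E) A *ᵥ y) = ⟪∑ i, x i • bs E i, A (∑ i, y i • bs E i)⟫ := by
  simp only [dotProduct, mulVec, mt_apply, map_sum, map_smul, sum_inner, inner_sum,
    inner_smul_left, inner_smul_right, conj_trivial, Finset.mul_sum]
  rw [Finset.sum_comm]
  refine Finset.sum_congr rfl fun i _ => Finset.sum_congr rfl fun j _ => ?_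
  ring

theorem mt_det (A : E →L[ℝ] E) : (mt (bs E) A).det = A.det := LinearMap.det_toMatrix _ _

theorem mt_add (A B : E →L[ℝ] E) : mt (bs E) (A + B) = mt (bs E) A + mt (bs E) B := by
  unfold mt; rw [← map_add]; rfl

theorem mt_sub (A B : E →L[ℝ] E) : mt (bs E) (A - B) = mt (bs E) A - mt (bs E) B := by
  unfold mt; rw [← map_sub]; rfl

theorem mt_smul (c : ℝ) (A : E →L[ℝ] E) : mt (bs E) (c • A) = c • mt (bs E) A := by
  unfold mt; rw [← map_smul]; rfl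

theorem mt_one : mt (bs E) (1 : E →L[ℝ] E) = 1 := LinearMap.toMatrix_id _

theorem mt_psd {A : E →L[ℝ] E} (hA : (A : E →ₗ[ℝ] E).IsPositive) : (mt (bs E) A).PosSemidef :=
  (LinearMap.posSemidef_toMatrix_iff (stdOrthonormalBasis ℝ E)).2 hA

theorem det_nonneg_of_pos {A : E →L[ℝ] E} (hA : (A : E →ₗ[ℝ] E).IsPositive) : 0 ≤ A.det := by
  rw [← mt_det]; exact (mt_psd hA).det_nonneg

/-- complex determinant of `B₁ + i B₂` -/
noncomputable def cdI (B₁ B₂ : E →L[ℝ] E) : ℂ :=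
  ((mt (bs E) B₁).map Complex.ofReal + Complex.I • (mt (bs E) B₂).map Complex.ofReal).det

theorem cdI_le {A C B₁ B₂ : E →L[ℝ] E} (hA : (A : E →ₗ[ℝ] E).IsPositive)
    (hC : (C : E →ₗ[ℝ] E).IsPositive) {ε : ℝ} (hε : 0 < ε)
    (h : ∀ x₁ x₂ y₁ y₂ : E, 2 * (⟪x₁, B₁ y₁⟫ + ⟪x₂, B₁ y₂⟫ - ⟪x₁, B₂ y₂⟫ + ⟪x₂, B₂ y₁⟫) ≤
        ⟪x₁, A x₁⟫ + ⟪x₂, A x₂⟫ + (⟪y₁, C y₁⟫ + ⟪y₂, C y₂⟫)) :
    ‖cdI (B₁ + ε • 1) B₂‖ ≤ √((A + ε • 1).det * (C + ε • 1).det) := by
  refine Real.le_sqrt_of_sq_le ?_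
  rw [← mt_det, ← mt_det]
  have pd : ∀ {A : E →L[ℝ] E}, (A : E →ₗ[ℝ] E).IsPositive → (mt (bs E) (A + ε • 1)).PosDef := by
    intro A hA
    rw [mt_add, mt_smul, mt_one]
    exact PosDef.posSemidef_add (mt_psd hA) (PosDef.one.smul hε)
  refine det_cs (pd hA) (pd hC) fun x₁ x₂ y₁ y₂ => ?_
  simp only [mt_form]
  generalize ∑ i, x₁ i • bs E i = X₁
  generalize ∑ i, x₂ i • bs E i = X₂
  generalize ∑ i, y₁ i • bs E i = Y₁
  generalize ∑ i, y₂ i • bs E i = Y₂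
  have h0 := h X₁ X₂ Y₁ Y₂
  have h1 : 0 ≤ ⟪X₁ - Y₁, X₁ - Y₁⟫ := real_inner_self_nonneg
  have h2 : 0 ≤ ⟪X₂ - Y₂, X₂ - Y₂⟫ := real_inner_self_nonneg
  simp only [inner_sub_left, inner_sub_right] at h1 h2
  rw [real_inner_comm X₁ Y₁] at h1
  rw [real_inner_comm X₂ Y₂] at h2
  simp only [_root_.add_apply, _root_.smul_apply, one_apply_eq_self, inner_add_right, inner_smul_right]
  nlinarith

/-- first partial operator -/
noncomputable def p1 (D : (E × E) →L[ℝ] E) : E →L[ℝ] E := D.comp (ContinuousLinearMap.inl ℝ E E)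
/-- second partial operator -/
noncomputable def p2 (D : (E × E) →L[ℝ] E) : E →L[ℝ] E := D.comp (ContinuousLinearMap.inr ℝ E E)

theorem mt_prod (D₁ D₂ : (E × E) →L[ℝ] E) : mt (bs2 E) (D₁.prod D₂) =
    fromBlocks (mt (bs E) (p1 D₁)) (mt (bs E) (p2 D₁)) (mt (bs E) (p1 D₂)) (mt (bs E) (p2 D₂)) := by
  ext i j
  rcases i with i | i <;> rcases j with j | j <;>
    simp [mt, bs2, LinearMap.toMatrix_apply, p1, p2]

theorem cd2_iso (σ : ℝ) (hσ : σ ≠ 0) (D₁ D₂ : (E × E) →L[ℝ] E) :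
    cd2 (bs2 E) σ (σ * Complex.I) (D₁.prod D₂) ((-D₂).prod D₁) =
      (σ : ℂ) ^ Module.finrank ℝ E * cdI (p1 D₁ + p2 D₂ + σ⁻¹ • 1) (p2 D₁ - p1 D₂) := by
  unfold cd2 cdI
  rw [mt_prod, mt_prod]
  have n1 : mt (bs E) (p1 (-D₂)) = -mt (bs E) (p1 D₂) := by
    have : p1 (-D₂) = (-1 : ℝ) • p1 D₂ := by ext v; simp [p1]
    rw [this, mt_smul, neg_one_smul]
  have n2 : mt (bs E) (p2 (-D₂)) = -mt (bs E) (p2 D₂) := by
    have : p2 (-D₂) = (-1 : ℝ) • p2 D₂ := by ext v; simp [p2]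
    rw [this, mt_smul, neg_one_smul]
  rw [n1, n2, mt_add, mt_add, mt_sub, mt_smul, mt_one]
  generalize mt (bs E) (p1 D₁) = a
  generalize mt (bs E) (p2 D₁) = b
  generalize mt (bs E) (p1 D₂) = c
  generalize mt (bs E) (p2 D₂) = d
  set U : Matrix (Fin (Module.finrank ℝ E) ⊕ Fin (Module.finrank ℝ E)) (Fin (Module.finrank ℝ E)) ℂ :=
    fromRows 1 (Complex.I • 1) with hU
  set V : Matrix (Fin (Module.finrank ℝ E)) (Fin (Module.finrank ℝ E) ⊕ Fin (Module.finrank ℝ E)) ℂ :=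
    fromCols ((σ : ℂ) • (a.map Complex.ofReal - Complex.I • c.map Complex.ofReal))
      ((σ : ℂ) • (b.map Complex.ofReal - Complex.I • d.map Complex.ofReal)) with hV
  have e1 : 1 + (σ : ℂ) • (fromBlocks a b c d).map Complex.ofReal +
      (σ * Complex.I) • (fromBlocks (-c) (-d) a b).map Complex.ofReal = 1 + U * V := by
    rw [add_assoc, hU, hV, fromRows_mul_fromCols]
    congr 1
    ext i j
    rcases i with i | i <;> rcases j with j | j <;> simp <;> ring_nf <;> simp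
  have e2 : ∀ M : Matrix (Fin (Module.finrank ℝ E)) (Fin (Module.finrank ℝ E)) ℂ,
      (σ : ℂ) ^ Module.finrank ℝ E * M.det = ((σ : ℂ) • M).det := fun M => by
    rw [det_smul, Fintype.card_fin]
  rw [e1, det_one_add_mul_comm, hU, hV, fromCols_mul_fromRows, e2]
  congr 1
  have hσ' : (σ : ℂ) ≠ 0 := Complex.ofReal_ne_zero.2 hσ
  ext i j
  simp [Matrix.one_apply]
  split_ifs
  · have h1 := mul_inv_cancel₀ hσ'
    have h2 := Complex.I_mul_I
    rw [Complex.ofReal_inv]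
    linear_combination (-1 : ℂ) * h1 - (σ : ℂ) * (d i j : ℂ) * h2
  · ring_nf
    simp

theorem det_chart {a : ℝ} (ha : a ≠ 0) (b : ℝ) (D : (E × E) →L[ℝ] E) :
    ((a • ContinuousLinearMap.fst ℝ E E + b • ContinuousLinearMap.snd ℝ E E).prod D).det =
      (a • p2 D - b • p1 D).det := by
  have h2 : ((a • ContinuousLinearMap.fst ℝ E E + b • ContinuousLinearMap.snd ℝ E E).prod D).det =
      (mt (bs2 E) ((a • ContinuousLinearMap.fst ℝ E E +
        b • ContinuousLinearMap.snd ℝ E E).prod D)).det := (LinearMap.det_toMatrix _ _).symm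
  have e1 : p1 (a • ContinuousLinearMap.fst ℝ E E + b • ContinuousLinearMap.snd ℝ E E) =
      a • (1 : E →L[ℝ] E) := by ext v; simp [p1]
  have e2 : p2 (a • ContinuousLinearMap.fst ℝ E E + b • ContinuousLinearMap.snd ℝ E E) =
      b • (1 : E →L[ℝ] E) := by ext v; simp [p2]
  rw [h2, mt_prod, e1, e2, ← mt_det, mt_sub, mt_smul, mt_smul, mt_smul, mt_smul, mt_one]
  generalize mt (bs E) (p1 D) = c
  generalize mt (bs E) (p2 D) = d
  set o : Matrix (Fin (Module.finrank ℝ E)) (Fin (Module.finrank ℝ E)) ℝ := 1 with ho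
  have e3 : fromBlocks (a • o) (b • o) c d =
      fromBlocks (a • o) 0 c o * fromBlocks o ((b / a) • o) 0 (d - (b / a) • c) := by
    rw [fromBlocks_multiply]
    congr 1
    · simp [ho]
    · simp [ho, smul_smul]
      congr 1
      field_simp
    · simp [ho]
    · simp [ho]
  rw [e3, ho, det_mul, det_fromBlocks_zero₁₂, det_fromBlocks_zero₂₁, det_one, mul_one, one_mul,
    ← det_mul]
  congr 1
  rw [smul_mul_assoc, one_mul, smul_sub, smul_smul, mul_div_cancel₀ _ ha]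

end Pool.Agent.MP_5f4cdd_gt.NW
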