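import Pool.Agent.MP_5f4cdd_gt.NW.Fun

set_option autoImplicit false
set_option linter.unusedSectionVars false
open Set Filter Topology MeasureTheory Metric
open scoped RealInnerProductSpace NNReal ENNReal Pointwise

namespace Pool.Agent.MP_5f4cdd_gt.NW

open T4

variable {E : Type*} [NormedAddCommGroup E] [InnerProductSpace ℝ E] [FiniteDimensional ℝ E]
  [MeasurableSpace E] [BorelSpace E] {K : Set E} {v : E → ℝ} {P : E → E}

/-- uniform measure on two copies of the unit interval -/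
noncomputable def mu2 : Measure (ℝ ⊕ ℝ) :=
  (2⁻¹ : ℝ≥0∞) • (mu0.map Sum.inl + mu0.map Sum.inr)

instance mu2_prob : IsProbabilityMeasure mu2 := ⟨by
  rw [mu2, Measure.smul_apply, Measure.add_apply, Measure.map_apply measurable_inl .univ,
    Measure.map_apply measurable_inr .univ, preimage_univ, preimage_univ, measure_univ,
    one_add_one_eq_two, smul_eq_mul, ENNReal.inv_mul_cancel (by norm_num) (by norm_num)]⟩

theorem emb_inl : MeasurableEmbedding (Sum.inl : ℝ → ℝ ⊕ ℝ) :=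
  ⟨Sum.inl_injective, measurable_inl, fun _ hs => hs.inl_image⟩

theorem emb_inr : MeasurableEmbedding (Sum.inr : ℝ → ℝ ⊕ ℝ) :=
  ⟨Sum.inr_injective, measurable_inr, fun _ hs => hs.inr_image⟩

theorem ae_mu2 {Q : ℝ ⊕ ℝ → Prop} (h₁ : ∀ᵐ x ∂mu0, Q (Sum.inl x)) (h₂ : ∀ᵐ x ∂mu0, Q (Sum.inr x)) :
    ∀ᵐ j ∂mu2, Q j :=
  Measure.ae_smul_measure (ae_add_measure_iff.2
    ⟨emb_inl.ae_map_iff.2 h₁, emb_inr.ae_map_iff.2 h₂⟩) _

theorem MB.sum {B : ℝ} {f g : ℝ → ℝ} (hf : MB mu0 B f) (hg : MB mu0 B g) :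
    MB mu2 B (Sum.elim f g) := ⟨hf.1.sumElim hg.1, ae_mu2 hf.2 hg.2⟩

theorem integral_mu2 {f : ℝ ⊕ ℝ → ℝ} (h₁ : Integrable (fun x => f (Sum.inl x)) mu0)
    (h₂ : Integrable (fun x => f (Sum.inr x)) mu0) :
    ∫ j, f j ∂mu2 = (∫ x, f (Sum.inl x) ∂mu0 + ∫ x, f (Sum.inr x) ∂mu0) / 2 := by
  rw [mu2, integral_smul_measure, integral_add_measure
    (emb_inl.integrable_map_iff.2 h₁)
    (emb_inr.integrable_map_iff.2 h₂), emb_inl.integral_map,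
    emb_inr.integral_map]
  simp
  ring

theorem curve_bound_sym (hP : IsProx K v P) (hK : IsCompact K) (hvc : ConvexOn ℝ K v)
    (hv : Continuous v) (hsym : ∀ y ∈ K, -y ∈ K ∧ v (-y) = v y) {ρ : ℝ} (hρ : 0 < ρ)
    (hball : closedBall 0 ρ ⊆ K) {p q p' q' : ℝ → ℝ}
    (hp : ∀ x, HasDerivAt p (p' x) x) (hq : ∀ x, HasDerivAt q (q' x) x) (cp : Continuous p')
    (cq : Continuous q') {κ : ℝ} (hκ : 0 < κ) (e0 : p 0 - q 0 = 2) (e1 : p 1 + q 1 = 2)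
    (h : ∀ x, 0 ≤ x → x ≤ 1 → 0 < p x ∧ 0 ≤ q x + 1 * p x ∧ 0 ≤ -q x + 1 * p x ∧
      ((p x + (x - 1 / 2) * p' x) ^ 2 + (q x + (x - 1 / 2) * q' x) ^ 2) * (p x ^ 2 + q x ^ 2) ≤
        κ ^ 2 * ((q x + 1 * p x) * (-q x + 1 * p x))) :
    ENNReal.ofReal ((2 * Real.pi / κ) ^ Module.finrank ℝ E) ≤ prodM K P v := by
  have c1 : Continuous p := continuous_iff_continuousAt.2 fun x => (hp x).continuousAt
  have c2 : Continuous q := continuous_iff_continuousAt.2 fun x => (hq x).continuousAt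
  obtain ⟨B₁, b₁⟩ := exists_MB c1
  obtain ⟨B₂, b₂⟩ := exists_MB c2
  obtain ⟨B₃, b₃⟩ := exists_MB (f := fun x => p x + (x - 1 / 2) * p' x) (by fun_prop)
  obtain ⟨B₄, b₄⟩ := exists_MB (f := fun x => q x + (x - 1 / 2) * q' x) (by fun_prop)
  obtain ⟨B₅, b₅⟩ := exists_MB (f := fun _ => (1 : ℝ)) continuous_const
  obtain ⟨B₆, b₆⟩ := exists_MB (f := fun _ => (-1 : ℝ)) continuous_const
  set B := max (max (max B₁ B₂) (max B₃ B₄)) (max B₅ B₆)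
  have m₁ := b₁ B (by simp [B])
  have m₂ := b₂ B (by simp [B])
  have m₃ := b₃ B (by simp [B])
  have m₄ := b₄ B (by simp [B])
  have m₅ := b₅ B (by simp [B])
  have m₆ := b₆ B (by simp [B])
  have hψ : ∀ y ∈ K, psi v (-y) = psi v y := fun y hy => by
    simp only [psi, norm_neg, (hsym y hy).2]
  have hj₁ := jensen_nw hP hK hvc hv (m₁.sum m₂) (m₂.sum m₁) (m₅.sum m₅) (fun j y hy => by
    rcases j with j | j <;> simpa using hy)
  have hj₂ := jensen_nw hP hK hvc hv (m₁.sum m₂) (m₂.sum m₁) (m₅.sum m₆) (fun j y hy => by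
    rcases j with j | j
    · simpa using hy
    · simpa using ⟨(hsym y hy).1, hψ y hy⟩)
  have hj₃ := jensen_nw hP hK hvc hv m₁ m₂ m₅ (fun _ y hy => by simpa using hy)
  have hj₄ := jensen_nw hP hK hvc hv m₂ m₁ m₅ (fun _ y hy => by simpa using hy)
  obtain ⟨D, hD⟩ := hK.isBounded.exists_norm_le
  refine network_fun hP hK hv hρ hball (m₁.sum m₂) (m₂.sum m₁) (m₃.sum m₄) (m₄.sum m₃)
    (m₅.sum m₅) (m₅.sum m₆)
    (ae_mu2 (ae_mu0 fun x h0 h1 => Or.inl (h x h0 h1).1.ne')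
      (ae_mu0 fun x h0 h1 => Or.inr (h x h0 h1).1.ne')) one_pos one_pos hκ
    (ae_mu2 (ae_mu0 fun x h0 h1 => by have := (h x h0 h1).2.1; simp only [Sum.elim_inl]; linarith)
      (ae_mu0 fun x h0 h1 => by have := (h x h0 h1).2.1; simp only [Sum.elim_inr]; linarith))
    (ae_mu2 (ae_mu0 fun x h0 h1 => by have := (h x h0 h1).2.2.1; simp only [Sum.elim_inl]; linarith)
      (ae_mu0 fun x h0 h1 => by have := (h x h0 h1).2.2.1; simp only [Sum.elim_inr]; linarith))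
    (ae_mu2 (ae_mu0 fun x h0 h1 => by
        have := (h x h0 h1).2.2.2; simp only [Sum.elim_inl]; linarith)
      (ae_mu0 fun x h0 h1 => by have := (h x h0 h1).2.2.2; simp only [Sum.elim_inr]; linarith))
    (fun X => (hj₁ X).1) (fun X => (hj₂ X).1) fun X => ?_
  have a1 := curve_id hP hv hp hq cp cq X
  have a2 := curve_id hP hv hq hp cq cp X
  obtain ⟨i1, -⟩ := inner_nw hP hD m₁ m₂ m₃ X X.1
  obtain ⟨i2, -⟩ := inner_nw hP hD m₁ m₂ m₄ X X.2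
  obtain ⟨i3, -⟩ := inner_nw hP hD m₂ m₁ m₄ X X.1
  obtain ⟨i4, -⟩ := inner_nw hP hD m₂ m₁ m₃ X X.2
  have i5 : Integrable (fun x => (p x + (x - 1 / 2) * p' x) * ⟪X.1, P (pt p q x X)⟫ +
      (q x + (x - 1 / 2) * q' x) * ⟪X.2, P (pt p q x X)⟫) mu0 := i1.add i2
  have i6 : Integrable (fun x => (q x + (x - 1 / 2) * q' x) * ⟪X.1, P (pt q p x X)⟫ +
      (p x + (x - 1 / 2) * p' x) * ⟪X.2, P (pt q p x X)⟫) mu0 := i3.add i4
  rw [integral_sub i5 (hj₃ X).2.1, integral_add i1 i2] at a1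
  rw [integral_sub i6 (hj₄ X).2.1, integral_add i3 i4] at a2
  have k₁ := (hj₁ X).2.2
  have k₂ := (hj₂ X).2.2
  rw [integral_mu2 (hj₃ X).2.1 (hj₄ X).2.1] at k₁ k₂
  rw [(inner_nw hP hD (m₁.sum m₂) (m₂.sum m₁) (m₃.sum m₄) X X.1).2,
    (inner_nw hP hD (m₁.sum m₂) (m₂.sum m₁) (m₄.sum m₃) X X.2).2,
    integral_mu2 i1 i3, integral_mu2 i2 i4]
  have t₁ : 2 * pot P v ((1 : ℝ) • X.1 + (-1 : ℝ) • X.2) ≤
      pot P v (pt p q 0 X) + pot P v (pt q p 0 X) := by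
    set t := (1 : ℝ) • X.1 + (-1 : ℝ) • X.2 with ht
    have b1 := le_pot hP (pt p q 0 X) (hP.mem t)
    have b2 := le_pot hP (pt q p 0 X) (hsym _ (hP.mem t)).1
    rw [hψ _ (hP.mem t), inner_neg_left] at b2
    have b3 : pt p q 0 X - pt q p 0 X = (2 : ℝ) • t := by
      rw [ht, pt, pt, show p 0 = q 0 + 2 by linarith]; module
    have b4 : ⟪P t, pt p q 0 X⟫ - ⟪P t, pt q p 0 X⟫ = 2 * ⟪P t, t⟫ := by
      rw [← inner_sub_right, b3, inner_smul_right]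
    rw [pot_eq t]
    linarith
  have t₂ : 2 * pot P v ((1 : ℝ) • X.1 + (1 : ℝ) • X.2) ≤
      pot P v (pt p q 1 X) + pot P v (pt q p 1 X) := by
    set t := (1 : ℝ) • X.1 + (1 : ℝ) • X.2 with ht
    have b1 := le_pot hP (pt p q 1 X) (hP.mem t)
    have b2 := le_pot hP (pt q p 1 X) (hP.mem t)
    have b3 : pt p q 1 X + pt q p 1 X = (2 : ℝ) • t := by
      rw [ht, pt, pt, show p 1 = 2 - q 1 by linarith]; module
    have b4 : ⟪P t, pt p q 1 X⟫ + ⟪P t, pt q p 1 X⟫ = 2 * ⟪P t, t⟫ := by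
      rw [← inner_add_right, b3, inner_smul_right]
    rw [pot_eq t]
    linarith
  change _ ≤ 2 * (((∫ x, (p x + (x - 1 / 2) * p' x) * ⟪X.1, P (pt p q x X)⟫ ∂mu0) +
    ∫ x, (q x + (x - 1 / 2) * q' x) * ⟪X.1, P (pt q p x X)⟫ ∂mu0) / 2 +
    ((∫ x, (q x + (x - 1 / 2) * q' x) * ⟪X.2, P (pt p q x X)⟫ ∂mu0) +
    ∫ x, (p x + (x - 1 / 2) * p' x) * ⟪X.2, P (pt q p x X)⟫ ∂mu0) / 2)
  change _ ≤ ((∫ x, psi v (P (pt p q x X)) ∂mu0) + ∫ x, psi v (P (pt q p x X)) ∂mu0) / 2 at k₁ k₂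
  linarith

end Pool.Agent.MP_5f4cdd_gt.NW
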